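import Mathlib

/-! Automorphisms of an algebraically closed field. -/

open Polynomial

namespace Ivrii.S3

universe u v

lemma equiv_of_trdeg {A : Type*} [CommRing A] [IsDomain A] {K L : Type u} [Field K] [Field L]
    [Algebra A K] [Algebra A L] [FaithfulSMul A K] [FaithfulSMul A L] [IsAlgClosed K]
    [IsAlgClosed L] (h : Algebra.trdeg A K = Algebra.trdeg A L) :
    ∃ e : K ≃+* L, ∀ a, e (algebraMap A K a) = algebraMap A L a := by
  obtain ⟨ι, v, hv⟩ := exists_isTranscendenceBasis' A K
  obtain ⟨κ, w, hw⟩ := exists_isTranscendenceBasis' A L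
  obtain ⟨e⟩ : Nonempty (ι ≃ κ) :=
    Cardinal.eq.1 (by rw [hv.cardinalMk_eq_trdeg, hw.cardinalMk_eq_trdeg, h])
  have := IsAlgClosed.isAlgClosure_of_transcendence_basis v hv
  have := IsAlgClosed.isAlgClosure_of_transcendence_basis w hw
  let e' : Algebra.adjoin A (Set.range v) ≃ₐ[A] Algebra.adjoin A (Set.range w) :=
    (hv.1.aevalEquiv.symm.trans (MvPolynomial.renameEquiv A e)).trans hw.1.aevalEquiv
  refine ⟨IsAlgClosure.equivOfEquiv K L e'.toRingEquiv, fun a => ?_⟩
  rw [IsScalarTower.algebraMap_apply A (Algebra.adjoin A (Set.range v)) K,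
    IsAlgClosure.equivOfEquiv_algebraMap]
  exact (congrArg (algebraMap _ L) (e'.commutes a)).trans
    (IsScalarTower.algebraMap_apply A _ L a).symm

variable {k : Type*} {Ω : Type u} [Field k] [Field Ω] [Algebra k Ω] [IsAlgClosed Ω]

/-- Two embeddings of an algebra of finite transcendence degree are conjugate. -/
theorem exists_aut {A : Type v} [CommRing A] [Algebra k A]
    (hA : Algebra.trdeg k A < Cardinal.aleph0) (f g : A →ₐ[k] Ω) (hf : Function.Injective f)
    (hg : Function.Injective g) : ∃ σ : Ω ≃ₐ[k] Ω, ∀ a, σ (f a) = g a := by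
  have : IsDomain A := hf.isDomain f.toRingHom
  have key : ∀ φ : A →ₐ[k] Ω, Function.Injective φ →
      Cardinal.lift.{u} (Algebra.trdeg k A) +
        Cardinal.lift.{v} (@Algebra.trdeg A Ω _ _ φ.toAlgebra) =
        Cardinal.lift.{v} (Algebra.trdeg k Ω) := fun φ hφ => by
    let _ := φ.toAlgebra
    have : IsScalarTower k A Ω := .of_algebraMap_eq fun a => (φ.commutes a).symm
    have : FaithfulSMul A Ω := (faithfulSMul_iff_algebraMap_injective A Ω).2 hφ
    exact lift_trdeg_add_eq k A Ω
  have h := Cardinal.lift_injective (Cardinal.eq_of_add_eq_add_left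
    ((key f hf).trans (key g hg).symm) (Cardinal.lift_lt_aleph0.2 hA))
  obtain ⟨e, he⟩ := @equiv_of_trdeg A _ _ Ω Ω _ _ f.toAlgebra g.toAlgebra
    ((@faithfulSMul_iff_algebraMap_injective A Ω _ _ f.toAlgebra).2 hf)
    ((@faithfulSMul_iff_algebraMap_injective A Ω _ _ g.toAlgebra).2 hg) _ _ h
  refine ⟨{ e with commutes' := fun c => ?_ }, he⟩
  exact (congrArg e (f.commutes c).symm).trans ((he _).trans (g.commutes c))

/-- Two homomorphisms with the same kernel are conjugate. -/
theorem exists_aut_of_ker {A : Type*} [CommRing A] [Algebra k A] [Algebra.FiniteType k A]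
    (f g : A →ₐ[k] Ω) (h : ∀ a, f a = 0 ↔ g a = 0) : ∃ σ : Ω ≃ₐ[k] Ω, ∀ a, σ (f a) = g a := by
  have : (RingHom.ker f).IsPrime := RingHom.ker_isPrime f
  obtain ⟨σ, hσ⟩ := exists_aut (k := k) (A := A ⧸ RingHom.ker f) trdeg_lt_aleph0_of_finiteType
    (Ideal.kerLiftAlg f) (Ideal.Quotient.liftₐ _ g fun a ha => (h a).1 ha)
    (Ideal.kerLiftAlg_injective f) (by
      rw [injective_iff_map_eq_zero]
      intro a ha
      obtain ⟨a, rfl⟩ := Ideal.Quotient.mk_surjective a
      exact Ideal.Quotient.eq_zero_iff_mem.2 ((h a).2 ha))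
  exact ⟨σ, fun a => hσ (Ideal.Quotient.mk _ a)⟩

/-- An embedding of a subfield of finite transcendence degree extends to an automorphism. -/
theorem exists_aut_ext (X : IntermediateField k Ω) (hX : Algebra.trdeg k X < Cardinal.aleph0)
    (φ : X →ₐ[k] Ω) : ∃ σ : Ω ≃ₐ[k] Ω, ∀ a : X, σ a = φ a :=
  exists_aut hX X.val φ X.val.injective φ.injective

/-- Tuples with the same relations over `X` are conjugate under `G(X)`. -/
theorem gal_tuple (X : IntermediateField k Ω) {ι : Type*} [Finite ι] (y y' : ι → Ω)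
    (h : ∀ p : MvPolynomial ι X, MvPolynomial.aeval y p = 0 ↔ MvPolynomial.aeval y' p = 0) :
    ∃ σ ∈ X.fixingSubgroup, ∀ i, σ (y i) = y' i := by
  obtain ⟨σ, hσ⟩ := exists_aut_of_ker (k := X) (MvPolynomial.aeval y) (MvPolynomial.aeval y') h
  exact ⟨σ.restrictScalars k, (IntermediateField.mem_fixingSubgroup_iff _ _).2
    fun x hx => σ.commutes ⟨x, hx⟩, fun i => by simpa using hσ (MvPolynomial.X i)⟩

theorem gal' (X : IntermediateField k Ω) (y y' : Ω)
    (h : ∀ p : X[X], aeval y p = 0 ↔ aeval y' p = 0) : ∃ σ ∈ X.fixingSubgroup, σ y = y' := by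
  obtain ⟨σ, hσ⟩ := exists_aut_of_ker (k := X) (aeval y) (aeval y') h
  exact ⟨σ.restrictScalars k, (IntermediateField.mem_fixingSubgroup_iff _ _).2
    fun x hx => σ.commutes ⟨x, hx⟩, by simpa using hσ Polynomial.X⟩

/-- Roots of an irreducible polynomial over `X` are conjugate under `G(X)`. -/
theorem gal (X : IntermediateField k Ω) {p : X[X]} (hp : Irreducible p) {y y' : Ω}
    (hy : aeval y p = 0) (hy' : aeval y' p = 0) : ∃ σ ∈ X.fixingSubgroup, σ y = y' := by
  have key : ∀ x : Ω, aeval x p = 0 → ∀ q : X[X], aeval x q = 0 ↔ p ∣ q := fun x hx q => by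
    refine ⟨fun hq => ?_, fun ⟨r, hr⟩ => by rw [hr, map_mul, hx, zero_mul]⟩
    by_contra hn
    obtain ⟨a, b, e⟩ := hp.coprime_iff_not_dvd.2 hn
    have := congrArg (aeval x) e
    simp [hx, hq] at this
  exact gal' X y y' fun q => (key y hy q).trans (key y' hy' q).symm

/-- An element fixed by `G(X)` lies in `X`. -/
theorem fix [CharZero k] (X : IntermediateField k Ω) {y : Ω}
    (h : ∀ σ ∈ X.fixingSubgroup, σ y = y) : y ∈ X := by
  have : CharZero Ω := charZero_of_injective_algebraMap (algebraMap k Ω).injective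
  by_cases hy : IsIntegral X y
  · have hirr := minpoly.irreducible hy
    have h1 : (minpoly X y).natDegree = 1 := by
      have hs := hirr.separable.map (f := algebraMap X Ω)
      have hc := (IsAlgClosed.splits ((minpoly X y).map (algebraMap X Ω))).natDegree_eq_card_roots
      rw [natDegree_map] at hc
      have hle : ((minpoly X y).map (algebraMap X Ω)).roots ≤ {y} := by
        rw [Multiset.le_iff_subset (nodup_roots hs)]
        intro x hx
        obtain ⟨σ, hσ, e⟩ := gal X hirr (minpoly.aeval X y) (y' := x) (by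
          have := (mem_roots'.1 hx).2
          rwa [IsRoot, eval_map_algebraMap] at this)
        rw [← e, h σ hσ]
        exact Multiset.mem_singleton_self y
      have := Multiset.card_le_card hle
      have := minpoly.natDegree_pos hy
      simp only [Multiset.card_singleton] at *
      omega
    obtain ⟨a, ha⟩ := minpoly.natDegree_eq_one_iff.1 h1
    exact ha ▸ a.2
  · exfalso
    have ht : Transcendental X y := fun h' => hy h'.isIntegral
    have ht' : Transcendental X (y + 1) := fun h' =>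
      ht (by simpa using h'.sub isAlgebraic_one)
    obtain ⟨σ, hσ, e⟩ := gal' X y (y + 1) fun p => by
      rw [map_eq_zero_iff _ (transcendental_iff_injective.1 ht),
        map_eq_zero_iff _ (transcendental_iff_injective.1 ht')]
    rw [h σ hσ] at e
    simp at e

omit [IsAlgClosed Ω] in
lemma sq_fixed {X : IntermediateField k Ω} {y : Ω} (hy : y ^ 2 ∈ X) {σ : Ω ≃ₐ[k] Ω}
    (hσ : σ ∈ X.fixingSubgroup) : σ y = y ∨ σ y = -y :=
  sq_eq_sq_iff_eq_or_eq_neg.1 (by
    rw [← map_pow]; exact (IntermediateField.mem_fixingSubgroup_iff _ _).1 hσ _ hy)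

/-- Multiquadratic extensions: all signs are realised. -/
theorem mq [CharZero k] (X : IntermediateField k Ω) {ι : Type*} [Fintype ι] (y : ι → Ω)
    (hy : ∀ i, y i ^ 2 ∈ X) (h : ∀ S : Finset ι, S.Nonempty → ∏ i ∈ S, y i ∉ X)
    (T : Set ι) :
    ∃ σ ∈ X.fixingSubgroup, ∀ i, (i ∈ T → σ (y i) = -y i) ∧ (i ∉ T → σ (y i) = y i) := by
  classical
  have : CharZero Ω := charZero_of_injective_algebraMap (algebraMap k Ω).injective
  have h0 : ∀ i, y i ≠ 0 := fun i hi => h {i} (by simp) (by simp [hi])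
  have hpm : ∀ i (σ : X.fixingSubgroup), σ.1 (y i) / y i = 1 ∨ σ.1 (y i) / y i = -1 :=
    fun i σ => (sq_fixed (hy i) σ.2).imp (fun e => by rw [e, div_self (h0 i)])
      fun e => by rw [e, neg_div, div_self (h0 i)]
  let χ : ι → X.fixingSubgroup →* Ω := fun i =>
    { toFun := fun σ => σ.1 (y i) / y i
      map_one' := div_self (h0 i)
      map_mul' := fun σ ρ => by
        change σ.1 (ρ.1 (y i)) / y i = σ.1 (y i) / y i * (ρ.1 (y i) / y i)
        rcases sq_fixed (hy i) ρ.2 with e | e
        · rw [e, div_self (h0 i), mul_one]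
        · rw [e, map_neg, neg_div, neg_div, div_self (h0 i), mul_neg_one] }
  have hχ : ∀ i σ, χ i σ = σ.1 (y i) / y i := fun _ _ => rfl
  have hsq : ∀ i σ, χ i σ * χ i σ = 1 := fun i σ => by
    rcases hpm i σ with e | e <;> simp [hχ, e]
  have hinj : Function.Injective fun S : Finset ι => ∏ i ∈ S, χ i := by
    intro S S' e
    by_contra hne
    refine h (symmDiff S S') (Finset.symmDiff_nonempty.2 hne) (fix X fun σ hσ => ?_)
    have e1 := DFunLike.congr_fun e ⟨σ, hσ⟩
    simp only [MonoidHom.finsetProd_apply] at e1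
    have e2 : ∏ i ∈ symmDiff S S', χ i ⟨σ, hσ⟩ = 1 := by
      have a1 := Finset.prod_sdiff (f := fun i => χ i ⟨σ, hσ⟩) (Finset.inter_subset_left (s₁ := S)
        (s₂ := S'))
      have a2 := Finset.prod_sdiff (f := fun i => χ i ⟨σ, hσ⟩) (Finset.inter_subset_right (s₁ := S)
        (s₂ := S'))
      rw [Finset.sdiff_inter_self_left] at a1
      rw [Finset.sdiff_inter_self_right] at a2
      have a3 : ∏ i ∈ S ∩ S', χ i ⟨σ, hσ⟩ ≠ 0 := Finset.prod_ne_zero_iff.2 fun i _ hi => by
        simpa [hi] using hsq i ⟨σ, hσ⟩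
      rw [symmDiff_def, Finset.sup_eq_union, Finset.prod_union disjoint_sdiff_sdiff,
        mul_right_cancel₀ a3 (a1.trans (e1.trans a2.symm)), ← Finset.prod_mul_distrib]
      simp [hsq]
    rw [map_prod, ← mul_one (∏ i ∈ symmDiff S S', y i), ← e2, ← Finset.prod_mul_distrib]
    exact Finset.prod_congr rfl fun i _ => by rw [hχ, mul_div_cancel₀ _ (h0 i)]
  have hli := (linearIndependent_monoidHom X.fixingSubgroup Ω).comp _ hinj
  let ε : ι → Ω := fun i => if i ∈ T then -1 else 1
  by_contra hn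
  have h1 := Fintype.linearIndependent_iff.1 hli (fun S => ∏ i ∈ S, ε i) (by
    funext σ
    have e : ∏ i, (1 + ε i * χ i σ) = 0 := by
      by_contra e
      refine hn ⟨σ.1, σ.2, fun i => ?_⟩
      have e1 := Finset.prod_ne_zero_iff.1 e i (Finset.mem_univ i)
      rcases sq_fixed (hy i) σ.2 with e2 | e2
      · refine ⟨fun hi => absurd ?_ e1, fun _ => e2⟩
        simp [ε, hi, hχ, e2, h0 i]
      · refine ⟨fun _ => e2, fun hi => absurd ?_ e1⟩
        simp [ε, hi, hχ, e2, h0 i]
    rw [Finset.prod_one_add, Finset.powerset_univ] at e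
    simpa [Finset.prod_mul_distrib, Finset.sum_apply] using e) ∅
  simp at h1

end Ivrii.S3
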