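import Pool.Agent.P.MP_7a8567_an.S3.TM
import Pool.Agent.P.MP_7a8567_an.Alg.Bas

/-! Monodromy: a transposition and two-transitivity give the full symmetric group. -/

open MvPolynomial

namespace Ivrii.S3

variable {k : Type} [Field k] {Ω : Type} [Field Ω] [Algebra k Ω] [IsAlgClosed Ω]

lemma transp (td : TD2 k Ω) (tm : TM k) {Q : R2 k} {l : Ω × Ω} (hQ : Irreducible Q)
    (hd : 2 ≤ Q.totalDegree) (hl : Gen k l) :
    ∃ (y : Fin Q.totalDegree → Ω) (i j : Fin Q.totalDegree) (σ : Ω ≃ₐ[k] Ω), i ≠ j ∧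
      Function.Injective y ∧ (∀ z, z ∈ Rts Q l ↔ ∃ m, y m = z) ∧ σ l.1 = l.1 ∧ σ l.2 = l.2 ∧
      ∀ m, σ (y m) = y (Equiv.swap i j m) := by
  classical
  obtain ⟨L, _, _, l0, σ0, a, x, i, j, hg, hij, hx, hfl, h1, h2, h3⟩ := tm Q hQ hd
  let ι : L →ₐ[k] AlgebraicClosure L := IsScalarTower.toAlgHom k L _
  obtain ⟨ψ, hψ⟩ := lift_gen td hl ((hom_gen ι ι.commutes).2 hg)
  have h0 : fl Q l ≠ 0 := fl_ne hQ.ne_zero (Gen_tr1 hl)
  have hmap : (fl Q l).map (ψ : Ω →+* AlgebraicClosure L) =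
      Polynomial.C (ι a) * ∏ m, (Polynomial.X - Polynomial.C (ι (x m))) := by
    have e1 := map_fl (ψ : Ω →+* AlgebraicClosure L) ψ.commutes Q l
    have e2 := map_fl (ι : L →+* AlgebraicClosure L) ι.commutes Q l0
    rw [e1, show Prod.map (ψ : Ω →+* AlgebraicClosure L) (ψ : Ω →+* AlgebraicClosure L) l =
      Prod.map (ι : L →+* AlgebraicClosure L) (ι : L →+* AlgebraicClosure L) l0 from hψ, ← e2, hfl]
    simp [Polynomial.map_prod]
  have hne : (fl Q l).map (ψ : Ω →+* AlgebraicClosure L) ≠ 0 := Polynomial.map_ne_zero h0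
  have ha : ι a ≠ 0 := fun e => hne (by rw [hmap, e]; simp)
  have hroots := (IsAlgClosed.splits (fl Q l)).roots_map (ψ : Ω →+* AlgebraicClosure L)
  have hmem : ∀ w, w ∈ ((fl Q l).map (ψ : Ω →+* AlgebraicClosure L)).roots ↔
      ∃ m, ι (x m) = w := fun w => by
    rw [Polynomial.mem_roots hne, hmap, Polynomial.IsRoot, Polynomial.eval_mul,
      Polynomial.eval_C, Polynomial.eval_prod, mul_eq_zero, Finset.prod_eq_zero_iff]
    simp [ha, sub_eq_zero, eq_comm (a := w)]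
  have hy : ∀ m, ∃ z, z ∈ (fl Q l).roots ∧ ψ z = ι (x m) := fun m => by
    have := (hmem _).2 ⟨m, rfl⟩
    rw [hroots, Multiset.mem_map] at this
    exact this
  choose y hy1 hy2 using hy
  have e1 : ψ l.1 = ι l0.1 := congrArg Prod.fst hψ
  have e2 : ψ l.2 = ι l0.2 := congrArg Prod.snd hψ
  let f0 : MvPolynomial (Fin 2 ⊕ Fin Q.totalDegree) k →ₐ[k] L :=
    aeval (Sum.elim ![l0.1, l0.2] x)
  let f : MvPolynomial (Fin 2 ⊕ Fin Q.totalDegree) k →ₐ[k] Ω :=
    aeval (Sum.elim ![l.1, l.2] y)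
  let g : MvPolynomial (Fin 2 ⊕ Fin Q.totalDegree) k →ₐ[k] Ω :=
    aeval (Sum.elim ![l.1, l.2] fun m => y (Equiv.swap i j m))
  have hf : ψ.comp f = ι.comp f0 := by
    ext (s | m)
    · fin_cases s <;> simp [f, f0, e1, e2]
    · simp [f, f0, hy2]
  have hg' : ψ.comp g = (ι.comp σ0).comp f0 := by
    ext (s | m)
    · fin_cases s <;> simp [g, f0, e1, e2, h1, h2]
    · simp [g, f0, hy2, h3]
  obtain ⟨σ, hσ⟩ := exists_aut_of_ker f g fun p => by
    have a1 : ψ (f p) = ι (f0 p) := DFunLike.congr_fun hf p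
    have a2 : ψ (g p) = ι (σ0 (f0 p)) := DFunLike.congr_fun hg' p
    rw [← map_eq_zero ψ, ← map_eq_zero ψ (a := g p), a1, a2]
    simp only [map_eq_zero]
  refine ⟨y, i, j, σ, hij, fun m n e => hx (ι.injective ?_), fun z => ⟨fun hz => ?_, ?_⟩,
    ?_, ?_, fun m => ?_⟩
  · change ι (x m) = ι (x n)
    rw [← hy2, ← hy2, e]
  · obtain ⟨m, hm⟩ := (hmem (ψ z)).1 (by
      rw [hroots]
      exact Multiset.mem_map.2 ⟨z, Multiset.mem_toFinset.1 hz, rfl⟩)
    exact ⟨m, ψ.injective ((hy2 m).trans hm)⟩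
  · rintro ⟨m, rfl⟩
    exact Multiset.mem_toFinset.2 (hy1 m)
  · simpa [f, g] using hσ (X (.inl 0))
  · simpa [f, g] using hσ (X (.inl 1))
  · simpa [f, g] using hσ (X (.inr m))

theorem mon [IsAlgClosed k] [CharZero k] (td : TD2 k Ω) (tm : TM k) (tt : TT k Ω) : MON k Ω := by
  classical
  intro Q l hQ hd hl
  obtain ⟨y, i, j, σ, hij, hy, hR, s1, s2, s3⟩ := transp td tm hQ hd hl
  have h0 : fl Q l ≠ 0 := fl_ne hQ.ne_zero (Gen_tr1 hl)
  refine ⟨natDegree_fl hQ.ne_zero (Gen_tr1 hl), ?_, fun π => ?_⟩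
  · have : Rts Q l = Finset.univ.image y := by
      ext z
      simp [hR]
    rw [this, Finset.card_image_of_injective _ hy]
    simp
  induction π using Equiv.Perm.swap_induction_on with
  | one => exact ⟨1, one_mem _, fun _ => rfl⟩
  | swap_mul π u v huv ih =>
    obtain ⟨τ, hτ, hπ⟩ := ih
    obtain ⟨ρ, ε, hε, r1, r2, r3, r4⟩ := tt Q l (y i) (y j) u v hQ hd hl ((hR _).2 ⟨i, rfl⟩)
      ((hR _).2 ⟨j, rfl⟩) u.2 v.2 (fun e => hij (hy e)) fun e => huv (Subtype.ext e)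
    have hε2 : ε * ε = 1 := by rcases hε with e | e <;> simp [e]
    have hfix : ∀ (φ : Ω ≃ₐ[k] Ω) (z : Ω), φ (ε * z) = ε * φ z := fun φ z => by
      rcases hε with e | e <;> simp [e]
    have hinv : ∀ z w : Ω, ρ w = ε * z → ρ.symm z = ε * w := fun z w e => by
      rw [AlgEquiv.symm_apply_eq, hfix, e, ← mul_assoc, hε2, one_mul]
    have hinj : Function.Injective fun m => ε * ρ (y m) := fun m n e => by
      have e' : ε * (ε * ρ (y m)) = ε * (ε * ρ (y n)) := congrArg (ε * ·) e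
      rw [← mul_assoc, ← mul_assoc, hε2, one_mul, one_mul] at e'
      exact hy (ρ.injective e')
    have hsw : ∀ z : Rts Q l, ρ (σ (ρ.symm z)) = (Equiv.swap u v z : Rts Q l) := fun z => by
      obtain ⟨m, hm⟩ := (hR (ρ.symm (ε * z))).1 ((mem_Rts h0).2 (by
        have e := hom_ev ρ ρ.commutes (pt l (ρ.symm (ε * z))) Q
        have e' : pt (Prod.map ρ ρ l) (ε * z) = pt l z := by
          have hl0 := Gen_ne hl
          rcases hε with e | e
          · simp [pt, r1, r2, e]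
          · refine Prod.ext ?_ ?_
            · simp only [pt, Prod.map_fst, Prod.map_snd, r1, r2, e]
              ring
            · simp only [pt, Prod.map_fst, Prod.map_snd, r1, r2, e]
              field_simp
              ring
        rw [hom_pt, AlgEquiv.apply_symm_apply, e', (mem_Rts h0).1 z.2, map_eq_zero] at e
        exact e))
      have hm' : ρ (y m) = ε * z := by rw [hm, AlgEquiv.apply_symm_apply]
      have e3 := hinj.swap_apply i j m
      simp only [r3, r4, hm', ← mul_assoc, hε2, one_mul] at e3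
      rw [hinv _ _ hm', hfix, s3, hfix, ← e3]
      exact Subtype.val_injective.swap_apply u v z
    refine ⟨ρ * σ * ρ⁻¹ * τ, mul_mem (mem_G_Fd.2 ⟨?_, ?_⟩) hτ, fun z => ?_⟩
    · change ρ (σ (ρ.symm l.1)) = l.1
      rw [hinv _ _ r1, hfix, s1, hfix, r1, ← mul_assoc, hε2, one_mul]
    · change ρ (σ (ρ.symm l.2)) = l.2
      rw [hinv _ _ r2, hfix, s2, hfix, r2, ← mul_assoc, hε2, one_mul]
    · change ρ (σ (ρ.symm (τ z))) = _
      rw [hπ, hsw]
      rfl

end Ivrii.S3
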