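import Pool.Agent.P.MP_7a8567_an.S3.TM
import Pool.Agent.P.MP_7a8567_an.TA.ThmA

/-! The closure lemma combined with Theorem A. -/

open MvPolynomial

namespace Ivrii.S3

variable {k : Type} [Field k] {κ : Type} [Field κ] [Algebra k κ]

/-- the derivative of `t ↦ ev (thru A t) n` -/
noncomputable def dth (A : κ × κ) (t : κ) (n : R2 k) : κ :=
  ev (thru A t) (pderiv 0 n) - ev (thru A t) (pderiv 1 n) * (A.1 / t ^ 2 + A.2)

lemma cl_poly (A : κ × κ) (n : R2 k) : ∃ (M : ℕ) (p : Polynomial κ), ∀ t : κ, t ≠ 0 →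
    p.eval t = t ^ M * ev (thru A t) n ∧
      t * p.derivative.eval t = M * p.eval t + t ^ (M + 1) * dth A t n := by
  induction n using MvPolynomial.induction_on with
  | C c => exact ⟨0, Polynomial.C (algebraMap k κ c), fun t _ => by simp [dth]⟩
  | add a b ha hb =>
    obtain ⟨M, p, hp⟩ := ha
    obtain ⟨M', p', hp'⟩ := hb
    refine ⟨M + M', Polynomial.X ^ M' * p + Polynomial.X ^ M * p', fun t ht => ?_⟩
    obtain ⟨a1, a2⟩ := hp t ht
    obtain ⟨b1, b2⟩ := hp' t ht
    have e : ∀ m : ℕ, t * (Polynomial.derivative (Polynomial.X ^ m : Polynomial κ)).eval t =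
        m * t ^ m := fun m => by
      rcases m with _ | m
      · simp
      · simp
        ring
    simp only [dth, map_add, Polynomial.derivative_mul, Polynomial.eval_add, Polynomial.eval_mul,
      Polynomial.eval_pow, Polynomial.eval_X, Nat.cast_add] at a2 b2 ⊢
    refine ⟨by rw [a1, b1]; ring, ?_⟩
    linear_combination p.eval t * e M' + p'.eval t * e M + t ^ M' * a2 + t ^ M * b2
  | mul_X a i ha =>
    obtain ⟨M, p, hp⟩ := ha
    fin_cases i
    · refine ⟨M, p * Polynomial.X, fun t ht => ?_⟩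
      obtain ⟨a1, a2⟩ := hp t ht
      have e : (thru A t).1 = t := rfl
      simp [dth, e] at a2 ⊢
      exact ⟨by rw [a1]; ring, by linear_combination t * a2 + t * a1⟩
    · refine ⟨M + 1, p * (Polynomial.C A.1 - Polynomial.C A.2 * Polynomial.X ^ 2), fun t ht => ?_⟩
      obtain ⟨a1, a2⟩ := hp t ht
      have e : (thru A t).2 = A.1 / t - A.2 * t := rfl
      obtain ⟨u, hu⟩ : ∃ u, A.1 = u * t ^ 2 := ⟨A.1 / t ^ 2, by field_simp⟩
      have e1 : A.1 / t = u * t := by rw [hu]; field_simp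
      have e2 : A.1 / t ^ 2 = u := by rw [hu]; field_simp
      simp [dth, e, e1, e2] at a2 ⊢
      rw [hu]
      exact ⟨by rw [a1]; ring,
        by linear_combination (u - A.2) * t ^ 2 * a2 - (u + A.2) * t ^ 2 * a1⟩

lemma cl_prod {q : κ} (hq : q ≠ 0) (s : Multiset κ) : ∃ (c : κ) (e : ℤ), ∀ t : κ, t ≠ 0 →
    (s.map fun r => q / t - q / r).prod = c * t ^ e * (s.map fun r => t - r).prod := by
  induction s using Multiset.induction_on with
  | empty => exact ⟨1, 0, fun t _ => by simp⟩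
  | cons r s ih =>
    obtain ⟨c, e, h⟩ := ih
    by_cases hr : r = 0
    · refine ⟨c * q, e - 2, fun t ht => ?_⟩
      rw [Multiset.map_cons, Multiset.map_cons, Multiset.prod_cons, Multiset.prod_cons, h t ht,
        zpow_sub₀ ht, hr]
      simp only [div_zero, sub_zero, zpow_ofNat]
      field_simp
    · refine ⟨-(c * q / r), e - 1, fun t ht => ?_⟩
      rw [Multiset.map_cons, Multiset.map_cons, Multiset.prod_cons, Multiset.prod_cons, h t ht,
        zpow_sub₀ ht, zpow_one]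
      field_simp
      ring

lemma cl_inv [IsAlgClosed κ] {q : κ} (hq : q ≠ 0) {p : Polynomial κ} (hp : p ≠ 0)
    (h1 : ∀ t, t ≠ 0 → t ^ 2 ≠ q → p.eval t = 0 → p.derivative.eval t ≠ 0)
    (h2 : ∀ t, t ≠ 0 → p.eval t = 0 → p.eval (q / t) = 0) :
    ∃ (c : κ) (e : ℤ), ∀ t : κ, t ≠ 0 → p.eval (q / t) = c * t ^ e * p.eval t := by
  classical
  have inv : ∀ r : κ, q / (q / r) = r := fun r => by
    by_cases hr : r = 0
    · simp [hr]
    · field_simp
  have hle : ∀ r, p.rootMultiplicity r ≤ p.rootMultiplicity (q / r) := fun r => by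
    by_cases hr : r = 0
    · simp [hr]
    by_cases hr2 : r ^ 2 = q
    · rw [← hr2, pow_two, mul_div_cancel_right₀ _ hr]
    by_cases h0 : p.eval r = 0
    · have a1 : p.rootMultiplicity r ≤ 1 := not_lt.1 fun h =>
        h1 r hr hr2 h0 ((Polynomial.one_lt_rootMultiplicity_iff_isRoot hp).1 h).2
      exact a1.trans ((Polynomial.rootMultiplicity_pos hp).2 (h2 r hr h0))
    · rw [Polynomial.rootMultiplicity_eq_zero h0]
      exact Nat.zero_le _
  have hm : p.roots.map (fun r => q / r) = p.roots := by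
    ext r
    conv_lhs => rw [← inv r]
    rw [Multiset.count_map_eq_count' _ _ (Function.Involutive.injective inv),
      Polynomial.count_roots, Polynomial.count_roots]
    exact le_antisymm ((hle _).trans_eq (by rw [inv])) (hle r)
  obtain ⟨c, e, h⟩ := cl_prod hq p.roots
  refine ⟨c, e, fun t ht => ?_⟩
  rw [(IsAlgClosed.splits p).eval_eq_prod_roots, (IsAlgClosed.splits p).eval_eq_prod_roots t]
  conv_lhs => rw [← hm, Multiset.map_map]
  rw [show ((fun r => q / t - r) ∘ fun r => q / r) = fun r => q / t - q / r from rfl, h t ht]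
  ring

lemma cl_rad {C : R2 k → Prop} {N : R2 k} (hN : N ≠ 0) (hC : ∀ π, C π → Irreducible π ∧ π ∣ N) :
    ∃ Pi : R2 k, Squarefree Pi ∧ (∀ π, C π → π ∣ Pi) ∧
      ∀ π, Irreducible π → π ∣ Pi → ∃ π', C π' ∧ Associated π' π := by
  classical
  let s := (UniqueFactorizationMonoid.factors N).filter fun p => ∃ π, C π ∧ Associated π p
  have hs : ∀ p ∈ s, Irreducible p := fun p hp =>
    UniqueFactorizationMonoid.irreducible_of_factor p (Multiset.mem_of_mem_filter hp)
  obtain ⟨y, n, h1, h2, h3⟩ := exists_squarefree_dvd_pow_of_ne_zero (x := s.prod)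
    (Multiset.prod_ne_zero fun h => (hs 0 h).ne_zero rfl)
  refine ⟨y, h1, fun π hπ => ?_, fun π hπ hd => ?_⟩
  · obtain ⟨a1, a2⟩ := hC π hπ
    obtain ⟨p, hp, e⟩ := UniqueFactorizationMonoid.exists_mem_factors_of_dvd hN a1 a2
    exact a1.prime.dvd_of_dvd_pow ((e.dvd.trans (Multiset.dvd_prod
      (Multiset.mem_filter.2 ⟨hp, π, hπ, e⟩))).trans h3)
  · obtain ⟨p, hp, e⟩ := hπ.prime.exists_mem_multiset_dvd (hd.trans h2)
    obtain ⟨π', a1, a2⟩ := (Multiset.mem_filter.1 hp).2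
    exact ⟨π', a1, a2.trans (hπ.associated_of_dvd (hs p hp) e).symm⟩

lemma GP.dth_ne [IsAlgClosed k] [CharZero k] {Q : R2 k} {A : κ × κ} {D : Derivation k κ κ}
    (h : GP Q A D) {n : R2 k} (hn : Squarefree n) {t : κ} (ht : t ≠ 0) (ht2 : t ^ 2 ≠ qv Q A)
    (h0 : ev (thru A t) n = 0) : dth A t n ≠ 0 := fun h1 => by
  have e := der_ev D (thru A t) n
  rw [h0, map_zero, der_thru D A ht, h.dz, h.dw] at e
  rw [dth] at h1
  have a1 : ev (thru A t) (pderiv 1 n) = 0 := by
    refine (mul_eq_zero.1 ?_).resolve_right (sub_ne_zero.2 ht2)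
    change 0 = _ * D t + _ at e
    have e' : ev (thru A t) (pderiv 1 n) * (qv Q A / t - t) = 0 := by
      linear_combination -e - D t * h1
    field_simp at e'
    linear_combination -e'
  have a0 : ev (thru A t) (pderiv 0 n) = 0 := by simpa [a1] using h1
  obtain ⟨π, hπ, ⟨m, rfl⟩, b0⟩ := exists_irr hn.ne_zero h0
  have tr := h.thru_tr ht
  have hm : ev (thru A t) m ≠ 0 := fun hm =>
    hπ.not_isUnit (hn π (mul_dvd_mul_left π ((H1 hπ b0 tr m).1 hm)))
  simp only [Derivation.leibniz, smul_eq_mul, map_add, map_mul, b0, zero_mul, zero_add,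
    mul_eq_zero, hm, false_or] at a0 a1
  exact tr.elim (fun t => H1_1 hπ b0 t a1) fun t => H1_0 hπ b0 t a0

theorem cl [IsAlgClosed k] [CharZero k] (τ : k →+* k) (hτ : ∀ a, τ (τ a) = a) {κ : Type}
    [Field κ] [Algebra k κ] [IsAlgClosed κ] : CL τ κ := by
  intro Q A D C N h hr h3 hN hC hcl π hπ
  obtain ⟨Pi, hsq, h1, h2⟩ := cl_rad hN hC
  by_contra hna
  have hq := h.q_ne
  have hPi : ∀ (c : k) (j : ℕ), Pi ≠ MvPolynomial.C c * X 0 ^ j := fun c j e => by
    have a1 := (hC π hπ).1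
    have hc : c ≠ 0 := fun hc => hsq.ne_zero (by simp [e, hc])
    have a2 := h1 π hπ
    rw [e, (hc.isUnit.map MvPolynomial.C).dvd_mul_left] at a2
    exact hna (a1.associated_of_dvd X_prime.irreducible (a1.prime.dvd_of_dvd_pow a2))
  obtain ⟨M, p, hp⟩ := cl_poly A Pi
  have z1 : ∀ t, t ≠ 0 → (p.eval t = 0 ↔ ev (thru A t) Pi = 0) := fun t ht => by
    rw [(hp t ht).1, mul_eq_zero, or_iff_right (pow_ne_zero _ ht)]
  have s1 : ∀ t, t ≠ 0 → t ^ 2 ≠ qv Q A → p.eval t = 0 → p.derivative.eval t ≠ 0 :=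
    fun t ht ht2 h0 hd => by
      have e := (hp t ht).2
      rw [h0, hd, mul_zero, mul_zero, zero_add, eq_comm, mul_eq_zero] at e
      exact e.elim (pow_ne_zero _ ht) (h.dth_ne hsq ht ht2 ((z1 t ht).1 h0))
  have p0 : p ≠ 0 := fun e => s1 1 one_ne_zero
    (fun e1 => h.q_tr (by rw [← e1, one_pow]; exact isAlgebraic_one)) (by simp [e]) (by simp [e])
  obtain ⟨c, e, hc⟩ := cl_inv hq p0 s1 fun t ht h0 => by
    obtain ⟨π1, a1, a2, a3⟩ := exists_irr hsq.ne_zero ((z1 t ht).1 h0)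
    obtain ⟨π2, b1, b2⟩ := h2 π1 a1 a2
    obtain ⟨r, hr⟩ := b2.symm.dvd
    obtain ⟨π3, c1, c2⟩ := hcl π2 t b1 ht (by rw [hr, map_mul, a3, zero_mul])
    obtain ⟨r', hr'⟩ := h1 π3 c1
    rw [z1 _ (div_ne_zero hq ht), hr', map_mul, c2, zero_mul]
  obtain ⟨F, f0, f1, f2⟩ := TA.thmA τ hτ A.1 A.2 (qv Q A) D (h.dw ▸ one_ne_zero)
    (by rw [h.dz, h.dw, mul_one]) hq ⟨Q, h.irr.ne_zero, h.zero⟩ (fun F hF => by
      obtain ⟨r, rfl⟩ := h.dvd hF
      obtain ⟨c, -, hc⟩ := hr
      have e1 : (![A.1, A.2] ∘ (Equiv.swap (0 : Fin 2) 1)) = ![A.2, A.1] := by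
        funext i
        fin_cases i <;> rfl
      have e2 : aeval ![A.2, A.1] (MvPolynomial.map τ Q) = 0 := by
        rw [← e1, ← aeval_rename, hc, map_mul]
        exact mul_eq_zero_of_right _ h.zero
      rw [map_mul, map_mul, e2, zero_mul]) Pi hPi (c / qv Q A ^ M) (e + M + M) fun t ht => by
      have e1 := hc t ht
      rw [(hp t ht).1, (hp _ (div_ne_zero hq ht)).1] at e1
      change ev (thru A (qv Q A / t)) Pi = _ * ev (thru A t) Pi
      rw [zpow_add₀ ht, zpow_add₀ ht, zpow_natCast]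
      rw [div_pow] at e1
      field_simp at e1 ⊢
      linear_combination e1
  exact f0 (h.low f2 (by omega))

end Ivrii.S3
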