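import Pool.Agent.P.MP_7a8567_an.S3.Tan
import Pool.Agent.P.MP_7a8567_an.S3.CL
import Pool.Agent.P.MP_7a8567_an.Alg.Bas

/-! Pair closure (PCL). -/

open MvPolynomial Ivrii.PX

namespace Ivrii.S3

variable {k : Type} [Field k]

section Jac

variable {L : Type} [Field L] [Algebra k L] (D E : Derivation k L L) {Q : R2 k} {B : L × L}
  (h : ev B Q = 0) (h0 : ev B (pderiv 0 Q) ≠ 0)
include h h0

lemma jac_thru {t : L} (ht : t ≠ 0) :
    jac D E (thru B t) = (qv Q B / t - t) * (D t * E B.2 - D B.2 * E t) := by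
  rw [jac, der_thru D B ht, der_thru E B ht, der_curve D h h0, der_curve E h h0]
  change D t * _ - _ * E t = _
  ring

/-- (INV) -/
lemma jac_rfl {t : L} (ht : t ≠ 0) (hq : qv Q B ≠ 0) :
    jac D E (thru B (qv Q B / t)) = qv Q B / t ^ 2 * jac D E (thru B t) := by
  have e : ∀ F : R2 k, D (ev B F) * E B.2 = D B.2 * E (ev B F) := fun F => by
    rw [der_ev, der_ev, der_curve D h h0, der_curve E h h0]
    ring
  have e2 : D (qv Q B) * E B.2 = D B.2 * E (qv Q B) := by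
    simp only [qv, Derivation.leibniz_div, map_neg, smul_eq_mul]
    linear_combination (ev B (pderiv 0 Q))⁻¹ ^ 2 *
      (ev B (pderiv 1 Q) * e (pderiv 0 Q) - ev B (pderiv 0 Q) * e (pderiv 1 Q))
  rw [jac_thru D E h h0 ht, jac_thru D E h h0 (div_ne_zero hq ht)]
  simp only [Derivation.leibniz_div, smul_eq_mul]
  generalize qv Q B = q at *
  field_simp
  linear_combination (t ^ 2 - q) * t * e2

end Jac

section Transfer

variable {Ω L : Type} [Field Ω] [Algebra k Ω] [IsAlgClosed Ω] [Field L] [Algebra k L]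

/-- A generic line with two of its points on the curve can be sent to any other such. -/
lemma transfer (td : TD2 k Ω) {Q : R2 k} {l : Ω × Ω} (hl : Gen k l) (h0 : fl Q l ≠ 0)
    (hF : Full (Fd k l) (Rts Q l)) {x y : Ω} (hx : x ∈ Rts Q l) (hy : y ∈ Rts Q l) (hxy : x ≠ y)
    {n d : R2 k} (hs : Sq (Fd k l ⊔ IntermediateField.adjoin k {x, y})
      (ev (rfx Q l x) n * ev (rfx Q l y) n * ev l d))
    {a : L × L} (ha : Gen k a) {u v : L} (hu : (fl Q a).eval u = 0) (hv : (fl Q a).eval v = 0)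
    (huv : u ≠ v) : ∃ r, ev (rfx Q a u) n * ev (rfx Q a v) n * ev a d = r ^ 2 := by
  classical
  let ι := IsScalarTower.toAlgHom k L (AlgebraicClosure L)
  have hι : Function.Injective ι := ι.toRingHom.injective
  obtain ⟨ψ, hψ⟩ := lift_gen td hl ((hom_gen ι ι.commutes).2 ha)
  have key : ∀ u, (fl Q a).eval u = 0 → ∃ z : Rts Q l, ψ z = ι u := fun u hu => by
    have e : ((fl Q l).map (ψ : Ω →+* AlgebraicClosure L)).IsRoot (ι u) := by
      rw [map_fl (ψ : Ω →+* AlgebraicClosure L) ψ.commutes, Polynomial.IsRoot, eval_fl, RingHom.coe_coe, hψ, ← hom_pt,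
        ← hom_ev ι ι.commutes, ← eval_fl, hu, map_zero]
    obtain ⟨z, hz⟩ := (IsAlgClosed.splits _).mem_range_of_isRoot h0 e
    refine ⟨⟨z, (mem_Rts h0).2 ?_⟩, hz⟩
    rw [← hz, Polynomial.isRoot_map_iff (RingHom.injective _), Polynomial.IsRoot, eval_fl] at e
    exact e
  obtain ⟨x1, hx1⟩ := key u hu
  obtain ⟨y1, hy1⟩ := key v hv
  have n1 : x1 ≠ y1 := fun e => huv (hι (by rw [← hx1, ← hy1, e]))
  obtain ⟨σ, hσ, hp⟩ := hF (Equiv.swap (Equiv.swap ⟨x, hx⟩ x1 ⟨y, hy⟩) y1 * Equiv.swap ⟨x, hx⟩ x1)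
  have sx := hp ⟨x, hx⟩
  have sy := hp ⟨y, hy⟩
  rw [Equiv.Perm.mul_apply, Equiv.swap_apply_left] at sx sy
  rw [Equiv.swap_apply_of_ne_of_ne _ n1] at sx
  swap
  · intro e
    rw [eq_comm, Equiv.swap_apply_eq_iff, Equiv.swap_apply_right] at e
    exact hxy (congrArg Subtype.val e).symm
  let φ := ψ.comp (σ : Ω →ₐ[k] Ω)
  have φl : Prod.map φ φ l = Prod.map ι ι a := by
    rw [← hψ, ← congrArg (Prod.map ψ ψ) (mem_G_Fd'.1 hσ)]
    rfl
  have φx : φ x = ι u := (congrArg ψ sx).trans hx1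
  have φy : φ y = ι v := (congrArg ψ sy).trans hy1
  obtain ⟨r, hr, e⟩ := hs
  have hle : Fd k l ⊔ IntermediateField.adjoin k {x, y} ≤ ι.fieldRange.comap φ := by
    refine sup_le (Fd_le.2 ⟨⟨a.1, (congrArg Prod.fst φl).symm⟩, a.2, (congrArg Prod.snd φl).symm⟩)
      (IntermediateField.adjoin_le_iff.2 ?_)
    rintro _ (rfl | rfl)
    exacts [⟨u, φx.symm⟩, ⟨v, φy.symm⟩]
  obtain ⟨r', hr'⟩ := hle hr
  refine ⟨r', hι ?_⟩
  have e2 := congrArg φ e
  rw [map_pow, ← show ι r' = φ r from hr'] at e2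
  rw [map_pow, ← e2]
  simp only [map_mul, ev_map, rfx_map, φl, φx, φy]

end Transfer

variable {κ : Type} [Field κ] [Algebra k κ] [IsAlgClosed k] [CharZero k]

omit [IsAlgClosed k] in
lemma exists_fam (td : ∀ a : κ × κ, ¬ Gen k a) {D : Derivation k κ κ} {w : κ} (hw : D w ≠ 0)
    {b : κ × κ} (hb : Transcendental k b.1 ∨ Transcendental k b.2) :
    ∃ a j, j ≠ 0 ∧ Res2 a b ∧ Res (jac (dcoef D) (dU κ k) a) j := by
  rcases hb with hb | hb
  · exact ⟨l0 b, _, der_ne_zero td D hw hb, res_l0 b, (jac_l0 D b).symm ▸ .C _⟩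
  · refine ⟨(HahnSeries.C b.1 + HahnSeries.single 1 1, HahnSeries.C b.2), _,
      neg_ne_zero.2 (der_ne_zero td D hw hb), ⟨by simpa using (Res.C b.1).add .X, .C _⟩, ?_⟩
    simp only [jac, map_add, dU_C, dU_X, dcoef_C, mul_zero, zero_add, mul_one, zero_sub]
    exact (Res.C _).neg

lemma order_rfx {D : Derivation k κ κ} {a : LaurentSeries κ × LaurentSeries κ} {b B : κ × κ}
    (h : Res2 a b) {j : κ} (hj : Res (jac (dcoef D) (dU κ k) a) j) (h0 : j ≠ 0) (hb : b.1 ≠ 0)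
    {Q : R2 k} (hB : On b B) (z0 : ev B Q = 0) (z1 : ev B (pderiv 0 Q) ≠ 0) (z2 : qv Q B ≠ 0)
    (z3 : b.1 ^ 2 ≠ qv Q B) {π : R2 k} (hπ : Irreducible π)
    (hz : ev (thru B (qv Q B / b.1)) π = 0) {n : R2 k} (hn : n ≠ 0) :
    ∃ u, Res u (pos b B) ∧ (fl Q a).eval u = 0 ∧ ev (rfx Q a u) n ≠ 0 ∧
      (ev (rfx Q a u) n).order = multiplicity π n := by
  have : CharZero κ := charZero_of_injective_algebraMap (algebraMap k κ).injective
  have hp := pt_pos hb hB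
  obtain ⟨u, u1, u2⟩ := hens Q h hb (x := pos b B) (by rw [eval_fl, hp, z0]) fun e => z3 (by
    rw [eval_derivative_fl, hp, yv] at e
    rw [qv]
    field_simp at e ⊢
    linear_combination e)
  have r1 := h.pt hb u1
  rw [hp] at r1
  have r2 := r1.qv z1
  have a0 := h.1.ne_zero hb
  refine ⟨u, u1, u2, tr (D := D) (r1.thru (r2.div h.1 hb) (div_ne_zero z2 hb)) ?_
    (mul_ne_zero (div_ne_zero z2 (pow_ne_zero 2 hb)) h0) hπ hz hn⟩
  rw [eval_fl] at u2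
  rw [jac_rfl _ _ u2 ((r1.ev _).ne_zero z1) a0 (r2.ne_zero z2), On.thru (on_pt a0 u)]
  exact (r2.div (h.1.pow 2) (pow_ne_zero 2 hb)).mul hj

theorem pcl {Ω : Type} [Field Ω] [Algebra k Ω] [IsAlgClosed Ω] (td : TD2 k Ω) (mon : MON k Ω)
    (τ : k →+* k) (hτ : ∀ a, τ (τ a) = a) : PCL τ Ω := by
  classical
  intro Q n d l x y hQ h3 hn hd hdn hl hx hy hxy _ _ hs π0 hπ0
  obtain ⟨A, D, h⟩ := exists_GP hQ.irr hQ.deg
  have hq := h.q_ne
  choose P P1 P2 using fun t => exists_irr_of_not_gen (h.td (thru A t))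
  have odv : ∀ π, OddP n π → Irreducible π ∧ π ∣ n := fun π e =>
    ⟨e.1, dvd_of_multiplicity_pos e.2.2.pos⟩
  have nX : ∀ π t, t ≠ 0 → ev (thru A t) π = 0 → ¬ Associated π (X 0 : R2 k) := fun π t ht e a => by
    obtain ⟨m, hm⟩ := a.dvd
    exact ht ((ev_X0 (thru A t)).symm.trans (by rw [hm, map_mul, e, zero_mul]))
  obtain ⟨Pi, hsq, h1, -⟩ := cl_rad hn odv
  obtain ⟨M, p, hp⟩ := cl_poly A Pi
  have p0 : p ≠ 0 := fun e => by
    obtain ⟨e1, e2⟩ := hp 1 one_ne_zero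
    simp only [e, map_zero, Polynomial.eval_zero, one_pow, one_mul, mul_zero, zero_add] at e1 e2
    exact h.dth_ne hsq one_ne_zero
      (fun e1 => h.q_tr (by rw [← e1, one_pow]; exact isAlgebraic_one)) e1.symm e2.symm
  refine hπ0.2.1 (cl τ hτ Q A D (fun π => OddP n π ∨ Irreducible π ∧ ∃ t π', t ≠ 0 ∧ OddP n π' ∧
    ev (thru A t) π' = 0 ∧ ev (thru A (qv Q A / t)) π = 0)
    (n * ∏ t ∈ p.roots.toFinset, P (qv Q A / t)) h hQ.real h3
    (mul_ne_zero hn (Finset.prod_ne_zero_iff.2 fun t _ => (P1 _).ne_zero)) ?_ ?_ π0 (.inl hπ0))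
  · rintro π (e | ⟨e, t, π', ht, a1, a2, a3⟩)
    · exact ⟨e.1, (odv π e).2.mul_right _⟩
    · refine ⟨e, Dvd.dvd.mul_left (((H1 e a3 (h.thru_tr (div_ne_zero hq ht)) _).1 (P2 _)).trans
        (Finset.dvd_prod_of_mem (fun t => P (qv Q A / t)) ?_)) _⟩
      obtain ⟨m, hm⟩ := h1 π' a1
      rw [Multiset.mem_toFinset, Polynomial.mem_roots p0, Polynomial.IsRoot, (hp t ht).1, hm,
        map_mul, a2, zero_mul, mul_zero]
  intro π t hπ ht hz
  by_cases hC : ∃ π', OddP n π' ∧ ev (thru A t) π' = 0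
  · obtain ⟨π', a1, a2⟩ := hC
    exact ⟨P _, .inr ⟨P1 _, t, π', ht, a1, a2, P2 _⟩, P2 _⟩
  by_cases h2 : t ^ 2 = qv Q A
  · exact ⟨π, hπ, by rwa [← h2, pow_two, mul_div_cancel_right₀ _ ht]⟩
  obtain ⟨hi, t1, π1, ht1, a1, a2, a3⟩ := hπ.resolve_left fun e => hC ⟨π, e, hz⟩
  obtain ⟨g, hg⟩ := exists_aut_of_ker (ev (thru A (qv Q A / t1))) (ev (thru A t)) fun F => by
    rw [H1 hi a3 (h.thru_tr (div_ne_zero hq ht1)), H1 hi hz (h.thru_tr ht)]
  have g1 : Prod.map g g (thru A (qv Q A / t1)) = thru A t :=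
    Prod.ext (by simpa using hg (X 0)) (by simpa using hg (X 1))
  have g2 : On (thru A t) (Prod.map g g A) := g1 ▸ hom_on g (on_thru A _)
  have g3 : qv Q (Prod.map g g A) ≠ 0 := by
    rw [← qv_map]
    exact (map_ne_zero g).2 hq
  have g4 : ev (thru (Prod.map g g A) (qv Q (Prod.map g g A) / t)) π1 = 0 := by
    have e : g (qv Q A / t1) = t := congrArg Prod.fst g1
    rw [← e, map_div₀, qv_map, div_div_cancel₀ g3, ← hom_thru, ← ev_map, a2, map_zero]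
  have g5 : ev (Prod.map g g A) Q = 0 := by rw [← ev_map, h.zero, map_zero]
  have g6 : ev (Prod.map g g A) (pderiv 0 Q) ≠ 0 := by
    rw [← ev_map]
    exact (map_ne_zero g).2 h.Qz
  generalize Prod.map g g A = B at *
  by_cases hB : B = A
  · exact ⟨π1, .inl a1, hB ▸ g4⟩
  obtain ⟨a, j, j0, r1, r2⟩ := exists_fam h.td (h.dw ▸ one_ne_zero) (h.thru_tr ht)
  obtain ⟨u, u1, u2, u3, u4⟩ := order_rfx r1 r2 j0 ht (on_thru A t) h.zero h.Qz hq h2 (P1 _)
    (P2 _) hn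
  obtain ⟨v, v1, v2, v3, v4⟩ := order_rfx r1 r2 j0 ht g2 g5 g6 g3 (fun e => hC ⟨π1, a1, by
    rwa [← show t ^ 2 = _ from e, pow_two, mul_div_cancel_right₀ _ ht,
      show thru B t = _ from On.thru g2] at g4⟩) a1.1 g4 hn
  obtain ⟨w1, w2⟩ := tr r1 r2 j0 hi hz hd
  obtain ⟨r, hr⟩ := transfer td hl (fl_ne hQ.irr.ne_zero (Gen_tr1 hl))
    (mon Q l hQ.irr hQ.deg hl).2.2 hx hy hxy hs (gen_of_jac (r2.ne_zero j0)) u2 v2 fun e => hB (by
      rw [← pt_pos ht g2, ← (e ▸ u1 : Res v _).unique v1, pt_pos ht (on_thru A t)])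
  have e := congrArg HahnSeries.order hr
  rw [HahnSeries.order_mul (mul_ne_zero u3 v3) w1, HahnSeries.order_mul u3 v3, u4, v4, w2,
    HahnSeries.order_pow, nsmul_eq_mul] at e
  have o1 := a1.2.2
  have o2 : ¬ Odd (multiplicity π d) := fun o => hC ⟨π, hdn π ⟨hi, nX π t ht hz, o⟩, hz⟩
  refine ⟨P _, .inl ⟨P1 _, nX _ _ (div_ne_zero hq ht) (P2 _), ?_⟩, P2 _⟩
  rw [Nat.odd_iff] at o1 o2 ⊢
  change ((multiplicity (P (qv Q A / t)) n : ℕ) : ℤ) + _ + _ = 2 * _ at e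
  omega

end Ivrii.S3
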