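import Pool.Agent.P.MP_7a8567_an.S3.TT
import Pool.Agent.P.MP_7a8567_an.S3.Mon
import Pool.Agent.P.MP_7a8567_an.S3.Pcl

/-! Section 3: monodromy, the tangent prime and pair closure. -/

namespace Ivrii.S3

variable {k Ω : Type} [Field k] [Field Ω] [Algebra k Ω] [IsAlgClosed k] [IsAlgClosed Ω]
  [CharZero k]

theorem monAll (td : TD2 k Ω) : MON k Ω := mon td tm tt

theorem tanpAll : TANP k := tanp

theorem pclAll (td : TD2 k Ω) (τ : k →+* k) (hτ : ∀ a, τ (τ a) = a) : PCL τ Ω :=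
  pcl td (monAll td) τ hτ

end Ivrii.S3
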