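import Pool.Agent.P.MP_7a8567_an.S3.Line
import Pool.Agent.P.MP_7a8567_an.LS

/-! Laurent series without pole, their residues; transversality (TR) and Hensel lifts. -/

open MvPolynomial Ivrii.PX

namespace Ivrii.S3

variable {κ : Type} [Field κ]

/-- `f` is a power series with constant term `c`. -/
def Res (f : LaurentSeries κ) (c : κ) : Prop :=
  ∃ g : PowerSeries κ, HahnSeries.ofPowerSeries ℤ κ g = f ∧ PowerSeries.constantCoeff g = c

namespace Res

variable {f g : LaurentSeries κ} {c d : κ}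

lemma C (c : κ) : Res (HahnSeries.C c) c := ⟨PowerSeries.C c, by simp, by simp⟩

lemma X : Res (HahnSeries.single 1 1 : LaurentSeries κ) 0 := ⟨PowerSeries.X, by simp, by simp⟩

lemma zero : Res (0 : LaurentSeries κ) 0 := ⟨0, map_zero _, map_zero _⟩

lemma one : Res (1 : LaurentSeries κ) 1 := ⟨1, map_one _, map_one _⟩

lemma nat (n : ℕ) : Res (n : LaurentSeries κ) n := ⟨n, map_natCast _ n, map_natCast _ n⟩

lemma two : Res (2 : LaurentSeries κ) 2 := nat 2

lemma add (h : Res f c) (h' : Res g d) : Res (f + g) (c + d) := by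
  obtain ⟨a, rfl, rfl⟩ := h
  obtain ⟨b, rfl, rfl⟩ := h'
  exact ⟨a + b, map_add _ _ _, map_add _ _ _⟩

lemma mul (h : Res f c) (h' : Res g d) : Res (f * g) (c * d) := by
  obtain ⟨a, rfl, rfl⟩ := h
  obtain ⟨b, rfl, rfl⟩ := h'
  exact ⟨a * b, map_mul _ _ _, map_mul _ _ _⟩

lemma neg (h : Res f c) : Res (-f) (-c) := by
  obtain ⟨a, rfl, rfl⟩ := h
  exact ⟨-a, map_neg _ _, map_neg _ _⟩

lemma sub (h : Res f c) (h' : Res g d) : Res (f - g) (c - d) := by
  simpa only [sub_eq_add_neg] using h.add h'.neg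

lemma pow (h : Res f c) (n : ℕ) : Res (f ^ n) (c ^ n) := by
  obtain ⟨a, rfl, rfl⟩ := h
  exact ⟨a ^ n, map_pow _ _ _, map_pow _ _ _⟩

lemma inv (h : Res f c) (hc : c ≠ 0) : Res f⁻¹ c⁻¹ := by
  obtain ⟨a, rfl, rfl⟩ := h
  refine ⟨a⁻¹, ?_, PowerSeries.constantCoeff_inv a⟩
  refine eq_inv_of_mul_eq_one_left ?_
  rw [← map_mul, PowerSeries.inv_mul_cancel a hc, map_one]

lemma div (h : Res f c) (h' : Res g d) (hd : d ≠ 0) : Res (f / g) (c / d) := by
  simpa only [div_eq_mul_inv] using h.mul (h'.inv hd)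

lemma coeff (h : Res f c) : f.coeff 0 = c := by
  obtain ⟨a, rfl, rfl⟩ := h
  exact (HahnSeries.ofPowerSeries_apply_coeff (Γ := ℤ) a 0).trans
    (PowerSeries.coeff_zero_eq_constantCoeff_apply a)

lemma coeff_neg (h : Res f c) {j : ℤ} (hj : j < 0) : f.coeff j = 0 := by
  obtain ⟨a, rfl, rfl⟩ := h
  rw [PowerSeries.coeff_coe, if_pos hj]

lemma of_coeff (h : ∀ j < 0, f.coeff j = 0) : Res f (f.coeff 0) := by
  obtain ⟨a, rfl⟩ := exists_ofPowerSeries h
  have : Res _ _ := ⟨a, rfl, rfl⟩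
  rwa [this.coeff]

lemma unique (h : Res f c) (h' : Res f d) : c = d := h.coeff.symm.trans h'.coeff

lemma ne_zero (h : Res f c) (hc : c ≠ 0) : f ≠ 0 := fun e => hc (h.unique (e ▸ zero))

lemma order (h : Res f c) (hc : c ≠ 0) : f.order = 0 := by
  refine le_antisymm (HahnSeries.order_le_of_coeff_ne_zero (h.coeff ▸ hc)) ?_
  by_contra hlt
  exact h.ne_zero hc (HahnSeries.coeff_order_eq_zero.1 (h.coeff_neg (not_le.1 hlt)))

lemma ram (h : Res f c) (n : ℕ+) : Res (ram n f) c := by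
  have := of_coeff (f := PX.ram n f) fun j hj => by
    rw [coeff_ram]
    split_ifs with h2
    · exact h.coeff_neg (Int.ediv_neg_of_neg_of_pos hj (by exact_mod_cast n.pos))
    · rfl
  rwa [← mul_zero ((n : ℕ) : ℤ), coeff_ram_mul, h.coeff] at this

lemma rot (h : Res f c) (ζ : κˣ) : Res (rot ζ f) c := by
  have := of_coeff (f := PX.rot ζ f) fun j hj => by rw [coeff_rot, h.coeff_neg hj, mul_zero]
  rwa [coeff_rot, h.coeff, zpow_zero, Units.val_one, one_mul] at this

variable {k : Type} [Field k] [Algebra k κ]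

lemma alg (c : k) : Res (algebraMap k (LaurentSeries κ) c) (algebraMap k κ c) := C _

lemma dcoef (h : Res f c) (D : Derivation k κ κ) : Res (dcoef D f) (D c) := by
  have := of_coeff (f := PX.dcoef D f) fun j hj => by rw [coeff_dcoef, h.coeff_neg hj, map_zero]
  rwa [coeff_dcoef, h.coeff] at this

variable (k) in
lemma dU (h : Res f c) : Res (dU κ k f) (f.coeff 1) := by
  have := of_coeff (f := PX.dU κ k f) fun j hj => by
    rw [coeff_dU]
    rcases (show j + 1 < 0 ∨ j + 1 = 0 by omega) with h2 | h2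
    · rw [h.coeff_neg h2, mul_zero]
    · rw [h2, Int.cast_zero, zero_mul]
  simpa using this

lemma order_one (h : Res f 0) (h1 : f.coeff 1 ≠ 0) : f ≠ 0 ∧ f.order = 1 := by
  have h0 := HahnSeries.ne_zero_of_coeff_ne_zero h1
  refine ⟨h0, le_antisymm (HahnSeries.order_le_of_coeff_ne_zero h1) ?_⟩
  by_contra hlt
  refine h0 (HahnSeries.coeff_order_eq_zero.1 ?_)
  rcases (show f.order < 0 ∨ f.order = 0 by omega) with h2 | h2
  · exact h.coeff_neg h2
  · rw [h2, h.coeff]

end Res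

/-- Residue of a pair. -/
def Res2 (a : LaurentSeries κ × LaurentSeries κ) (b : κ × κ) : Prop := Res a.1 b.1 ∧ Res a.2 b.2

variable {k : Type} [Field k] [Algebra k κ]

lemma Res2.ev {a : LaurentSeries κ × LaurentSeries κ} {b : κ × κ} (h : Res2 a b) (n : R2 k) :
    Res (ev a n) (ev b n) := by
  induction n using MvPolynomial.induction_on with
  | C c => simpa using Res.alg c
  | add p q hp hq => simpa using hp.add hq
  | mul_X p i hp =>
    fin_cases i
    · simpa using hp.mul h.1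
    · simpa using hp.mul h.2

lemma Res2.C (b : κ × κ) : Res2 (Prod.map HahnSeries.C HahnSeries.C b) b := ⟨.C _, .C _⟩

lemma Res2.thru {a : LaurentSeries κ × LaurentSeries κ} {b : κ × κ} (h : Res2 a b)
    {t : LaurentSeries κ} {s : κ} (ht : Res t s) (hs : s ≠ 0) : Res2 (thru a t) (thru b s) :=
  ⟨ht, (h.1.div ht hs).sub (h.2.mul ht)⟩

lemma Res2.pt [CharZero κ] {a : LaurentSeries κ × LaurentSeries κ} {b : κ × κ} (h : Res2 a b)
    (hb : b.1 ≠ 0) {x : LaurentSeries κ} {y : κ} (hx : Res x y) : Res2 (pt a x) (pt b y) :=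
  ⟨h.1.mul (hx.add (h.2.div .two two_ne_zero)), (hx.sub (h.2.div .two two_ne_zero)).div h.1 hb⟩

lemma Res2.pos [CharZero κ] {a A : LaurentSeries κ × LaurentSeries κ} {b B : κ × κ} (h : Res2 a b)
    (hb : b.1 ≠ 0) (hA : Res2 A B) : Res (pos a A) (pos b B) :=
  ((hA.1.div h.1 hb).add (hA.2.mul h.1)).div .two two_ne_zero

lemma Res2.qv {a : LaurentSeries κ × LaurentSeries κ} {b : κ × κ} (h : Res2 a b) {Q : R2 k}
    (hb : Ivrii.ev b (pderiv 0 Q) ≠ 0) : Res (qv Q a) (qv Q b) :=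
  (h.ev _).neg.div (h.ev _) hb

/-- The Jacobian of a pair for two derivations. -/
def jac {L : Type} [Field L] [Algebra k L] (D E : Derivation k L L) (a : L × L) : L :=
  D a.1 * E a.2 - D a.2 * E a.1

lemma tr_of_jac [IsAlgClosed k] {D : Derivation k κ κ} {a : LaurentSeries κ × LaurentSeries κ}
    {b : κ × κ} (h : Res2 a b) {j : κ} (hj : Res (jac (dcoef D) (dU κ k) a) j) (h0 : j ≠ 0) :
    Transcendental k b.1 ∨ Transcendental k b.2 := by
  have e := hj.unique (((h.1.dcoef D).mul (h.2.dU k)).sub ((h.2.dcoef D).mul (h.1.dU k)))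
  by_contra hn
  rw [not_or] at hn
  have h1 : D b.1 = 0 := by_contra fun h => hn.1 (tr_of_der h)
  have h2 : D b.2 = 0 := by_contra fun h => hn.2 (tr_of_der h)
  simp [e, h1, h2] at h0

/-- (TR) -/
theorem tr [IsAlgClosed k] [CharZero k] {D : Derivation k κ κ}
    {a : LaurentSeries κ × LaurentSeries κ} {b : κ × κ} (h : Res2 a b) {j : κ}
    (hj : Res (jac (dcoef D) (dU κ k) a) j) (h0 : j ≠ 0) {π : R2 k} (hπ : Irreducible π)
    (hb : ev b π = 0) {n : R2 k} (hn : n ≠ 0) :
    ev a n ≠ 0 ∧ (ev a n).order = multiplicity π n := by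
  have ht := tr_of_jac h hj h0
  have e := hj.unique (((h.1.dcoef D).mul (h.2.dU k)).sub ((h.2.dcoef D).mul (h.1.dU k)))
  have r0 : Res (ev a π) 0 := hb ▸ h.ev π
  have e1 := (r0.dU k).unique (by
    rw [der_ev]
    exact ((h.ev _).mul (h.1.dU k)).add ((h.ev _).mul (h.2.dU k)))
  have e2 := der_ev D b π
  rw [hb, map_zero] at e2
  have o1 := r0.order_one fun h1 => by
    rw [h1] at e1
    have a1 : ev b (pderiv 0 π) * j = 0 := by
      rw [e]
      linear_combination D b.2 * e1 - a.2.coeff 1 * e2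
    have a2 : ev b (pderiv 1 π) * j = 0 := by
      rw [e]
      linear_combination a.1.coeff 1 * e2 - D b.1 * e1
    exact ht.elim (fun t => H1_1 hπ hb t ((mul_eq_zero.1 a2).resolve_right h0))
      fun t => H1_0 hπ hb t ((mul_eq_zero.1 a1).resolve_right h0)
  obtain ⟨m, hm, hd⟩ :=
    (FiniteMultiplicity.of_prime_left hπ.prime hn).exists_eq_pow_mul_and_not_dvd
  have hm0 : ev b m ≠ 0 := fun h => hd ((H1 hπ hb ht m).1 h)
  have r1 := h.ev m
  generalize multiplicity π n = μ at hm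
  rw [hm, map_mul, map_pow]
  refine ⟨mul_ne_zero (pow_ne_zero _ o1.1) (r1.ne_zero hm0), ?_⟩
  rw [HahnSeries.order_mul (pow_ne_zero _ o1.1) (r1.ne_zero hm0), HahnSeries.order_pow, o1.2,
    r1.order hm0]
  simp

lemma gen_of_jac [CharZero k] {L : Type} [Field L] [Algebra k L] {D E : Derivation k L L}
    {a : L × L} (h : jac D E a ≠ 0) : Gen k a := by
  rw [gen_iff]
  intro n hn
  induction hd : n.totalDegree using Nat.strong_induction_on generalizing n with
  | _ d ih =>
  have e1 := der_ev D a n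
  have e2 := der_ev E a n
  rw [hn, map_zero] at e1 e2
  have key : ∀ i, ev a (pderiv i n) = 0 → pderiv i n = 0 := fun i hi => by
    by_contra h
    exact h (ih _ (hd ▸ totalDegree_pderiv_lt h) _ hi rfl)
  have h1 := key 0 ((mul_eq_zero.1 (by
    rw [jac]; linear_combination D a.2 * e2 - E a.2 * e1)).resolve_right h)
  have h2 := key 1 ((mul_eq_zero.1 (by
    rw [jac]; linear_combination E a.1 * e1 - D a.1 * e2)).resolve_right h)
  have h3 : n = C (coeff 0 n) := by
    rw [← totalDegree_eq_zero_iff_eq_C, totalDegree_eq_zero_iff]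
    intro m hm i
    fin_cases i
    · exact exp_eq_zero h1 hm
    · exact exp_eq_zero h2 hm
  rw [h3, ev_C, map_eq_zero] at hn
  rw [h3, hn, map_zero]

/-- The restriction of a curve to a line with coefficients in power series. -/
lemma exists_fl_lift [CharZero κ] (Q : R2 k) {a : LaurentSeries κ × LaurentSeries κ} {b : κ × κ}
    (h : Res2 a b) (hb : b.1 ≠ 0) : ∃ g : Polynomial (PowerSeries κ),
      g.map (HahnSeries.ofPowerSeries ℤ κ) = fl Q a ∧
        g.map PowerSeries.constantCoeff = fl Q b := by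
  obtain ⟨t, t1, t2⟩ := h.1
  obtain ⟨u, u1, u2⟩ := h.1.inv hb
  obtain ⟨p, p1, p2⟩ := h.2.div .two two_ne_zero
  refine ⟨aeval ![Polynomial.C t * (Polynomial.X + Polynomial.C p),
    (Polynomial.X - Polynomial.C p) * Polynomial.C u] Q, ?_, ?_⟩
  · rw [← Polynomial.coe_mapRingHom, hom_aeval _ fun c => by
      simp [Polynomial.algebraMap_apply, algebraMap_ls, PowerSeries.algebraMap_apply]]
    simp [fl, t1, u1, p1]
  · rw [← Polynomial.coe_mapRingHom, hom_aeval _ fun c => by
      simp [Polynomial.algebraMap_apply, PowerSeries.algebraMap_apply]]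
    simp [fl, t2, u2, p2]

/-- Hensel lift of a transversal intersection point. -/
lemma hens [CharZero κ] (Q : R2 k) {a : LaurentSeries κ × LaurentSeries κ} {b : κ × κ}
    (h : Res2 a b) (hb : b.1 ≠ 0) {x : κ} (h0 : (fl Q b).eval x = 0)
    (h1 : (fl Q b).derivative.eval x ≠ 0) : ∃ y, Res y x ∧ (fl Q a).eval y = 0 := by
  obtain ⟨g, g1, g2⟩ := exists_fl_lift Q h hb
  obtain ⟨y, y1, y2⟩ := hensel g (g2 ▸ h0) (g2 ▸ h1)
  exact ⟨_, ⟨y, rfl, y1⟩, by rw [← g1, Polynomial.eval_map, Polynomial.eval₂_hom, y2, map_zero]⟩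

end Ivrii.S3
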