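import Pool.Agent.P.MP_7a8567_an.Stm
import Pool.Agent.P.MP_7a8567_an.S3.Gal

/-! Elementary facts on polynomials in two variables, points and lines. -/

open MvPolynomial

namespace Ivrii.S3

variable {k : Type} [Field k]

section Ring

variable {A B : Type*} [CommRing A] [Algebra k A] [CommRing B] [Algebra k B]

lemma hom_aeval {G : Type*} [FunLike G A B] [RingHomClass G A B] (φ : G)
    (h : ∀ c : k, φ (algebraMap k A c) = algebraMap k B c) (a b : A) (n : R2 k) :
    φ (aeval ![a, b] n) = aeval ![φ a, φ b] n := by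
  induction n using MvPolynomial.induction_on with
  | C c => simp [h]
  | add p q hp hq => simp [hp, hq]
  | mul_X p i hp => fin_cases i <;> simp [hp]

lemma der_aeval (D : Derivation k A A) (a b : A) (n : R2 k) :
    D (aeval ![a, b] n) =
      aeval ![a, b] (pderiv 0 n) * D a + aeval ![a, b] (pderiv 1 n) * D b := by
  induction n using MvPolynomial.induction_on with
  | C c => simp
  | add p q hp hq => simp only [map_add, hp, hq]; ring
  | mul_X p i hp => fin_cases i <;> simp [hp] <;> ring

end Ring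

lemma totalDegree_pderiv_lt {n : R2 k} {i : Fin 2} (h : pderiv i n ≠ 0) :
    (pderiv i n).totalDegree < n.totalDegree := by
  obtain ⟨m, hm, e⟩ := Finset.exists_mem_eq_sup _ (support_nonempty.2 h)
    fun s : Fin 2 →₀ ℕ => s.sum fun _ e => e
  have h1 : m + Finsupp.single i 1 ∈ n.support := by
    rw [mem_support_iff] at hm ⊢
    rw [coeff_pderiv] at hm
    exact left_ne_zero_of_mul hm
  have h2 := le_totalDegree h1
  rw [Finsupp.sum_add_index' (by simp) (by simp), Finsupp.sum_single_index rfl] at h2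
  rw [totalDegree, e]
  omega

lemma pderiv_eq_zero_of_dvd {n : R2 k} {i : Fin 2} (h : n ∣ pderiv i n) : pderiv i n = 0 := by
  by_contra h0
  exact absurd (totalDegree_le_of_dvd_of_isDomain h h0) (not_le.2 (totalDegree_pderiv_lt h0))

lemma exp_eq_zero [CharZero k] {n : R2 k} {i : Fin 2} (h : pderiv i n = 0) {m : Fin 2 →₀ ℕ}
    (hm : m ∈ n.support) : m i = 0 := by
  by_contra h0
  have e : m - Finsupp.single i 1 + Finsupp.single i 1 = m :=
    tsub_add_cancel_of_le (Finsupp.single_le_iff.2 (by omega))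
  have := coeff_pderiv (i := i) n (m - Finsupp.single i 1)
  rw [h, e, coeff_zero, eq_comm, mul_eq_zero] at this
  rcases this with h1 | h1
  · exact mem_support_iff.1 hm h1
  · exact Nat.cast_add_one_ne_zero _ h1

lemma aeval_eq_of_pderiv [CharZero k] {A : Type*} [CommRing A] [Algebra k A] {n : R2 k}
    {i : Fin 2} (h : pderiv i n = 0) {u v : Fin 2 → A} (huv : ∀ j, j ≠ i → u j = v j) :
    aeval u n = aeval v n := by
  rw [n.as_sum, map_sum, map_sum]
  refine Finset.sum_congr rfl fun m hm => ?_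
  rw [aeval_monomial, aeval_monomial]
  congr 1
  refine Finsupp.prod_congr fun j hj => ?_
  rw [huv j]
  rintro rfl
  exact Finsupp.mem_support_iff.1 hj (exp_eq_zero h hm)

lemma eq_poly0 [CharZero k] {n : R2 k} (h : pderiv 1 n = 0) :
    ∃ p : Polynomial k, n = Polynomial.aeval (X 0 : R2 k) p := by
  refine ⟨aeval ![Polynomial.X, 0] n, ?_⟩
  rw [hom_aeval (Polynomial.aeval (X 0 : R2 k)) (AlgHom.commutes _)]
  conv_lhs => rw [← aeval_X_left_apply n]
  exact aeval_eq_of_pderiv h fun j hj => by fin_cases j <;> simp_all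

lemma eq_poly1 [CharZero k] {n : R2 k} (h : pderiv 0 n = 0) :
    ∃ p : Polynomial k, n = Polynomial.aeval (X 1 : R2 k) p := by
  refine ⟨aeval ![0, Polynomial.X] n, ?_⟩
  rw [hom_aeval (Polynomial.aeval (X 1 : R2 k)) (AlgHom.commutes _)]
  conv_lhs => rw [← aeval_X_left_apply n]
  exact aeval_eq_of_pderiv h fun j hj => by fin_cases j <;> simp_all

/-- Jacobian criterion, triangular form. -/
lemma inj_of_der [CharZero k] {A : Type*} [CommRing A] [IsDomain A] [Algebra k A]
    (D : Derivation k A A) {a b : A} (ha : D a ≠ 0) (hb : D b = 0) (ht : Transcendental k b)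
    (n : R2 k) (hn : aeval ![a, b] n = 0) : n = 0 := by
  induction hd : n.totalDegree using Nat.strong_induction_on generalizing n with
  | _ d ih =>
  have h1 : aeval ![a, b] (pderiv 0 n) = 0 := by
    have := der_aeval D a b n
    rw [hn, hb, map_zero, mul_zero, add_zero, eq_comm] at this
    exact (mul_eq_zero.1 this).resolve_right ha
  have h2 : pderiv 0 n = 0 := by
    by_contra h
    exact h (ih _ (hd ▸ totalDegree_pderiv_lt h) _ h1 rfl)
  obtain ⟨p, rfl⟩ := eq_poly1 h2
  rw [← Polynomial.aeval_algHom_apply] at hn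
  simp only [aeval_X, Matrix.cons_val_one, Matrix.cons_val_zero] at hn
  rw [transcendental_iff.1 ht p hn, map_zero]

variable {L : Type} [Field L] [Algebra k L]

@[simp] lemma ev_X0 (a : L × L) : ev (k := k) a (X 0) = a.1 := by simp [ev]

@[simp] lemma ev_X1 (a : L × L) : ev (k := k) a (X 1) = a.2 := by simp [ev]

@[simp] lemma ev_C (a : L × L) (c : k) : ev a (C c) = algebraMap k L c := by simp [ev]

lemma der_ev (D : Derivation k L L) (a : L × L) (n : R2 k) :
    D (ev a n) = ev a (pderiv 0 n) * D a.1 + ev a (pderiv 1 n) * D a.2 := der_aeval D _ _ n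

lemma gen_iff {a : L × L} : Gen k a ↔ ∀ n : R2 k, ev a n = 0 → n = 0 := algebraicIndependent_iff

lemma Gen_tr1 {a : L × L} (h : Gen k a) : Transcendental k a.1 := h.transcendental 0

lemma Gen_ne {a : L × L} (h : Gen k a) : a.1 ≠ 0 := fun e =>
  Gen_tr1 h (e ▸ isAlgebraic_zero)

/-- A curve through a point with a transcendental coordinate generates the ideal of the point. -/
theorem H1 {π : R2 k} (hπ : Irreducible π) {a : L × L} (h0 : ev a π = 0)
    (ht : Transcendental k a.1 ∨ Transcendental k a.2) (n : R2 k) : ev a n = 0 ↔ π ∣ n := by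
  refine ⟨fun hn => ?_, fun ⟨r, hr⟩ => by rw [hr, map_mul, h0, zero_mul]⟩
  by_contra hnd
  have hp := hπ.prime
  have i1 : (RingHom.ker (ev (k := k) a)).IsPrime := RingHom.ker_isPrime _
  have i2 : (Ideal.span {π}).IsPrime := (Ideal.span_singleton_prime hp.ne_zero).2 hp
  have l1 : (⊥ : Ideal (R2 k)) < Ideal.span {π} :=
    bot_lt_iff_ne_bot.2 (by simpa using hp.ne_zero)
  have l2 : Ideal.span {π} < RingHom.ker (ev (k := k) a) :=
    lt_of_le_of_ne ((Ideal.span_singleton_le_iff_mem _).2 h0) fun e =>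
      hnd (Ideal.mem_span_singleton.1 (e ▸ hn))
  have hmax : (RingHom.ker (ev (k := k) a)).IsMaximal := by
    obtain ⟨m, hm, hle⟩ := (RingHom.ker (ev (k := k) a)).exists_le_maximal i1.ne_top
    rcases hle.eq_or_lt with e | e
    · exact e ▸ hm
    have a1 := Ideal.height_add_one_le_of_lt_of_isPrime l1
    have a2 := Ideal.height_add_one_le_of_lt_of_isPrime l2
    have a3 := Ideal.height_add_one_le_of_lt_of_isPrime e
    have a4 := m.height_le_ringKrullDim_of_isPrime
    rw [MvPolynomial.ringKrullDim_of_isNoetherianRing, ringKrullDim_eq_zero_of_field, zero_add,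
      Nat.card_eq_fintype_card, Fintype.card_fin] at a4
    have a5 : m.height ≤ 2 := WithBot.coe_le_coe.1 a4
    have a6 : (3 : ℕ∞) ≤ m.height := by
      calc (3 : ℕ∞) = 0 + 1 + 1 + 1 := by norm_num
        _ ≤ (⊥ : Ideal (R2 k)).height + 1 + 1 + 1 := by gcongr; exact zero_le
        _ ≤ m.height := by grw [a1, a2, a3]
    exact absurd (a6.trans a5) (by decide)
  let _ := Ideal.Quotient.field (RingHom.ker (ev (k := k) a))
  have : Module.Finite k (R2 k ⧸ RingHom.ker (ev (k := k) a)) :=
    finite_of_finite_type_of_isJacobsonRing _ _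
  have key : ∀ p : R2 k, IsAlgebraic k (ev a p) := fun p =>
    ((IsIntegral.of_finite k (Ideal.Quotient.mk (RingHom.ker (ev (k := k) a)) p)).map
      (Ideal.kerLiftAlg (ev (k := k) a))).isAlgebraic
  rcases ht with h | h
  · exact h (by simpa using key (X 0))
  · exact h (by simpa using key (X 1))

lemma H1_1 [CharZero k] {π : R2 k} (hπ : Irreducible π) {a : L × L} (h0 : ev a π = 0)
    (ht : Transcendental k a.1) : ev a (pderiv 1 π) ≠ 0 := fun h => by
  obtain ⟨p, rfl⟩ := eq_poly0 (pderiv_eq_zero_of_dvd ((H1 hπ h0 (.inl ht) _).1 h))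
  rw [← Polynomial.aeval_algHom_apply, ev_X0] at h0
  exact hπ.ne_zero (by rw [transcendental_iff.1 ht p h0, map_zero])

lemma H1_0 [CharZero k] {π : R2 k} (hπ : Irreducible π) {a : L × L} (h0 : ev a π = 0)
    (ht : Transcendental k a.2) : ev a (pderiv 0 π) ≠ 0 := fun h => by
  obtain ⟨p, rfl⟩ := eq_poly1 (pderiv_eq_zero_of_dvd ((H1 hπ h0 (.inr ht) _).1 h))
  rw [← Polynomial.aeval_algHom_apply, ev_X1] at h0
  exact hπ.ne_zero (by rw [transcendental_iff.1 ht p h0, map_zero])

lemma exists_irr {n : R2 k} (hn : n ≠ 0) {a : L × L} (h : ev a n = 0) :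
    ∃ π, Irreducible π ∧ π ∣ n ∧ ev a π = 0 := by
  induction n using UniqueFactorizationMonoid.induction_on_prime with
  | h₁ => exact absurd rfl hn
  | h₂ x hx => exact absurd h (hx.map (ev a)).ne_zero
  | h₃ x p hx hp ih =>
    rw [map_mul, mul_eq_zero] at h
    rcases h with h | h
    · exact ⟨p, hp.irreducible, dvd_mul_right _ _, h⟩
    · obtain ⟨π, h1, h2, h3⟩ := ih hx h
      exact ⟨π, h1, h2.mul_left _, h3⟩

lemma exists_irr_of_not_gen {a : L × L} (h : ¬ Gen k a) : ∃ π : R2 k, Irreducible π ∧ ev a π = 0 := by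
  rw [gen_iff] at h
  push Not at h
  obtain ⟨n, h1, h2⟩ := h
  obtain ⟨π, a1, -, a2⟩ := exists_irr h2 h1
  exact ⟨π, a1, a2⟩

lemma tr_of_not_mem [IsAlgClosed k] {a : L} (h : ∀ c : k, a ≠ algebraMap k L c) :
    Transcendental k a := fun ha => by
  obtain ⟨c, hc⟩ := minpoly.mem_range_of_degree_eq_one k a
    (IsAlgClosed.degree_eq_one_of_irreducible k (minpoly.irreducible ha.isIntegral))
  exact h c hc.symm

lemma tr_of_der {D : Derivation k L L} [IsAlgClosed k] {a : L} (h : D a ≠ 0) :
    Transcendental k a := tr_of_not_mem fun c e => h (by simp [e])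

/-- In transcendence degree one the constants of a nonzero derivation are the ground field. -/
lemma der_ne_zero [CharZero k] (td : ∀ a : L × L, ¬ Gen k a) (D : Derivation k L L) {w : L}
    (hw : D w ≠ 0) {f : L} (hf : Transcendental k f) : D f ≠ 0 := fun h => by
  obtain ⟨π, h1, h2⟩ := exists_irr_of_not_gen (td (f, w))
  have := der_ev D (f, w) π
  rw [h2, map_zero, h, mul_zero, zero_add, eq_comm, mul_eq_zero] at this
  exact this.elim (H1_1 h1 h2 hf) hw

/-- A point of a curve of degree at least two with one transcendental coordinate has both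
coordinates transcendental. -/
lemma tr_both [IsAlgClosed k] {Q : R2 k} (hQ : Irreducible Q) (hd : 2 ≤ Q.totalDegree) {a : L × L}
    (h0 : ev a Q = 0) (ht : Transcendental k a.1 ∨ Transcendental k a.2) :
    Transcendental k a.1 ∧ Transcendental k a.2 := by
  have key : ∀ (i : Fin 2) (c : k), ev a (X i - C c) ≠ 0 := fun i c h => by
    have h1 := totalDegree_le_of_dvd_of_isDomain ((H1 hQ h0 ht _).1 h) (fun e => by
      have := congrArg (pderiv i) e
      simp at this)
    have h2 := (totalDegree_sub (X i : R2 k) (C c)).trans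
      (max_le (totalDegree_X i).le (by simp : (C c : R2 k).totalDegree ≤ 1))
    omega
  exact ⟨tr_of_not_mem fun c e => key 0 c (by simp [e]),
    tr_of_not_mem fun c e => key 1 c (by simp [e])⟩

lemma not_gen_of_alg {w a b : L} (ha : IsAlgebraic (Algebra.adjoin k {w}) a)
    (hb : IsAlgebraic (Algebra.adjoin k {w}) b) : ¬ Gen k (a, b) := fun h => by
  classical
  have h1 : (AlgebraicIndependent.matroid k L).Indep (Set.range ![a, b]) :=
    AlgebraicIndependent.matroid_indep_iff.2 (AlgebraicIndependent.to_subtype_range h)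
  have h2 : Set.range ![a, b] ⊆ (AlgebraicIndependent.matroid k L).closure {w} := by
    rw [AlgebraicIndependent.matroid_closure_eq]
    rintro _ ⟨i, rfl⟩
    fin_cases i
    · exact ha
    · exact hb
  have h3 := h1.encard_le_eRk_of_subset h2
  rw [Matroid.eRk_closure_eq, ← Set.image_univ, (h.injective.injOn).encard_image,
    Set.encard_univ] at h3
  have h4 := h3.trans (Matroid.eRk_singleton_le _ w)
  simp at h4

/-- Absolute irreducibility. -/
theorem irreducible_map [IsAlgClosed k] {Q : R2 k} (hQ : Irreducible Q) :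
    Irreducible (MvPolynomial.map (algebraMap k L) Q) := by
  classical
  have hinj := MvPolynomial.map_injective (σ := Fin 2) _ (algebraMap k L).injective
  have hdeg : ∀ {A B : Type} [CommRing A] [CommRing B] (φ : A →+* B) (p : MvPolynomial (Fin 2) A),
      (∀ m ∈ p.support, φ (p.coeff m) ≠ 0) → (MvPolynomial.map φ p).totalDegree = p.totalDegree := by
    intro A B _ _ φ p h
    have : (MvPolynomial.map φ p).support = p.support := by
      ext m
      simp only [mem_support_iff, coeff_map]
      exact ⟨fun h1 h2 => h1 (by simp [h2]), fun h1 => h m (mem_support_iff.2 h1)⟩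
    rw [totalDegree, this, totalDegree]
  have hu : ∀ {K : Type} [Field K] (p : MvPolynomial (Fin 2) K), IsUnit p ↔ p ≠ 0 ∧
      p.totalDegree = 0 := by
    intro K _ p
    rw [isUnit_iff_totalDegree_of_isReduced]
    refine ⟨fun h => ⟨fun e => by simp [e] at h, h.2⟩, fun h => ⟨?_, h.2⟩⟩
    refine IsUnit.mk0 _ fun e => h.1 ?_
    rw [totalDegree_eq_zero_iff_eq_C.1 h.2, e, map_zero]
  refine ⟨fun h => hQ.not_isUnit ((hu _).2 ⟨hQ.ne_zero, ?_⟩), fun A B e => ?_⟩
  · rw [← hdeg (algebraMap k L) Q fun m hm => by simpa using hm]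
    exact ((hu _).1 h).2
  have hAB : A * B ≠ 0 := e ▸ fun h => hQ.ne_zero (hinj (h.trans (map_zero _).symm))
  let S := Algebra.adjoin k ((A.coeffs ∪ B.coeffs : Finset L) : Set L)
  have : Algebra.FiniteType k S := (Subalgebra.fg_iff_finiteType S).mp ⟨_, rfl⟩
  have hl : ∀ p : MvPolynomial (Fin 2) L, p.coeffs ⊆ A.coeffs ∪ B.coeffs →
      ∃ p', MvPolynomial.map (algebraMap S L) p' = p := fun p hp =>
    mem_range_map_iff_coeffs_subset.2 fun c hc => ⟨⟨c, Algebra.subset_adjoin (hp hc)⟩, rfl⟩
  obtain ⟨A', hA'⟩ := hl A Finset.subset_union_left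
  obtain ⟨B', hB'⟩ := hl B Finset.subset_union_right
  have hS : Function.Injective (algebraMap S L) := Subtype.val_injective
  have e' : MvPolynomial.map (algebraMap k S) Q = A' * B' := MvPolynomial.map_injective _ hS (by
    rw [map_map, ← IsScalarTower.algebraMap_eq, e, map_mul, hA', hB'])
  have hs : (∏ m ∈ A'.support, A'.coeff m) * ∏ m ∈ B'.support, B'.coeff m ≠ 0 :=
    mul_ne_zero (Finset.prod_ne_zero_iff.2 fun m hm => mem_support_iff.1 hm)
      (Finset.prod_ne_zero_iff.2 fun m hm => mem_support_iff.1 hm)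
  have : IsJacobsonRing S := isJacobsonRing_of_finiteType (A := k)
  have hJ : (⊥ : Ideal S).jacobson = ⊥ :=
    IsJacobsonRing.out inferInstance (Ideal.IsPrime.isRadical inferInstance)
  rw [Ne, ← Ideal.mem_bot, ← hJ, Ideal.jacobson, Ideal.mem_sInf] at hs
  push Not at hs
  obtain ⟨m, ⟨-, hm⟩, hs⟩ := hs
  let _ := Ideal.Quotient.field m
  have : Module.Finite k (S ⧸ m) := finite_of_finite_type_of_isJacobsonRing k (S ⧸ m)
  let ε := AlgEquiv.ofBijective (Algebra.ofId k (S ⧸ m))
    (IsAlgClosed.algebraMap_bijective_of_isIntegral (k := k) (K := S ⧸ m))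
  let χ : S →ₐ[k] k := ε.symm.toAlgHom.comp (Ideal.Quotient.mkₐ k m)
  have hχ : ∀ s, χ s = 0 → s ∈ m := fun s h =>
    Ideal.Quotient.eq_zero_iff_mem.mp ((map_eq_zero_iff _ ε.symm.injective).mp h)
  have e2 : Q = MvPolynomial.map (χ : S →+* k) A' * MvPolynomial.map (χ : S →+* k) B' := by
    rw [← map_mul, ← e', map_map, AlgHom.comp_algebraMap, Algebra.algebraMap_self, map_id]
  have dA := hdeg (χ : S →+* k) A' fun μ hμ h => hs (m.mul_mem_right _
    (m.mem_of_dvd (Finset.dvd_prod_of_mem _ hμ) (hχ _ h)))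
  have dB := hdeg (χ : S →+* k) B' fun μ hμ h => hs (m.mul_mem_left _
    (m.mem_of_dvd (Finset.dvd_prod_of_mem _ hμ) (hχ _ h)))
  have dA' := hdeg (algebraMap S L) A' fun μ hμ h => mem_support_iff.1 hμ (hS (by simpa using h))
  have dB' := hdeg (algebraMap S L) B' fun μ hμ h => mem_support_iff.1 hμ (hS (by simpa using h))
  refine (hQ.isUnit_or_isUnit e2).imp (fun h => (hu _).2 ⟨left_ne_zero_of_mul hAB, ?_⟩)
    fun h => (hu _).2 ⟨right_ne_zero_of_mul hAB, ?_⟩
  · rw [← hA', dA', ← dA, ((hu _).1 h).2]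
  · rw [← hB', dB', ← dB, ((hu _).1 h).2]

end Ivrii.S3
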