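import Pool.Agent.P.MP_7a8567_an.S3.Ser
import Pool.Agent.P.MP_7a8567_an.T.Ext
import Pool.Agent.P.MP_7a8567_an.Alg.Conic

/-! Generic points of a curve, tangent lines (ENV, NV). -/

open MvPolynomial

namespace Ivrii.S3

variable {k : Type} [Field k] {κ : Type} [Field κ] [Algebra k κ]

/-- `A` is a generic point of `Q` in a field of transcendence degree one. -/
structure GP (Q : R2 k) (A : κ × κ) (D : Derivation k κ κ) : Prop where
  td : ∀ a : κ × κ, ¬ Gen k a
  irr : Irreducible Q
  deg : 2 ≤ Q.totalDegree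
  zero : ev A Q = 0
  dw : D A.2 = 1

/-- The algebraic closure of the field of rational functions. -/
abbrev Kap (k : Type) [Field k] := AlgebraicClosure (RatFunc k)

lemma linear_of_poly1 [IsAlgClosed k] {Q : R2 k} (hQ : Irreducible Q) {p : Polynomial k}
    (h : Q = Polynomial.aeval (X 1 : R2 k) p) : Q.totalDegree ≤ 1 := by
  by_cases hp : p.degree = 0
  · rw [h, Polynomial.eq_C_of_degree_eq_zero hp, Polynomial.aeval_C, algebraMap_eq, totalDegree_C]
    exact zero_le_one
  obtain ⟨c, hc⟩ := IsAlgClosed.exists_root p hp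
  obtain ⟨r, hr⟩ := Polynomial.dvd_iff_isRoot.2 hc
  rw [hr, map_mul, map_sub, Polynomial.aeval_X, Polynomial.aeval_C, algebraMap_eq] at h
  have h1 : (X 1 - C c : R2 k).totalDegree ≤ 1 := (totalDegree_sub _ _).trans
    (max_le (totalDegree_X _).le (by simp))
  rcases hQ.isUnit_or_isUnit h with hu | hu
  · have := hu.map (eval ![0, c])
    simp at this
  · rw [h]
    refine (totalDegree_mul _ _).trans ?_
    rw [(isUnit_iff_totalDegree_of_isReduced.1 hu).2]
    exact h1

lemma exists_GP [IsAlgClosed k] [CharZero k] {Q : R2 k} (hQ : Irreducible Q)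
    (hd : 2 ≤ Q.totalDegree) : ∃ (A : Kap k × Kap k) (D : Derivation k (Kap k) (Kap k)),
      GP Q A D := by
  let w : Kap k := algebraMap (RatFunc k) _ RatFunc.X
  have hw : Transcendental k w :=
    (transcendental_algebraMap_iff (algebraMap (RatFunc k) (Kap k)).injective).2
      RatFunc.transcendental_X
  have halg : ∀ a : Kap k, IsAlgebraic (Algebra.adjoin k {w}) a := fun a => by
    have : Algebra.IsAlgebraic (Polynomial k) (RatFunc k) :=
      IsLocalization.isAlgebraic _ (nonZeroDivisors (Polynomial k))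
    have h1 : IsAlgebraic (Polynomial k) a :=
      (Algebra.IsAlgebraic.trans (Polynomial k) (RatFunc k) (Kap k)).isAlgebraic a
    refine h1.ringHom_of_comp_eq (Polynomial.algEquivOfTranscendental k w hw) (RingHom.id _)
      (AlgEquiv.injective _) (RingHom.ext fun p => ?_)
    have e : Polynomial.aeval w p = algebraMap (Polynomial k) (Kap k) p := by
      rw [Polynomial.aeval_algebraMap_apply, RatFunc.aeval_X_left_eq_algebraMap,
        ← IsScalarTower.algebraMap_apply]
    simpa using e
  obtain ⟨D, -, hD⟩ := T.vd (k := k) hw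
  have hC : Transcendental k (Polynomial.C w) :=
    (transcendental_algebraMap_iff (A := Polynomial (Kap k)) Polynomial.C_injective).2 hw
  let d := (Polynomial.derivative' (R := Kap k)).restrictScalars k
  have d1 : d Polynomial.X = 1 := Polynomial.derivative_X
  have d2 : d (Polynomial.C w) = 0 := Polynomial.derivative_C
  obtain ⟨z, hz⟩ := IsAlgClosed.exists_root (aeval ![Polynomial.X, Polynomial.C w] Q) fun h => by
    have e := der_aeval d Polynomial.X (Polynomial.C w) Q
    rw [d1, d2, mul_one, mul_zero, add_zero, Polynomial.eq_C_of_degree_eq_zero h] at e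
    obtain ⟨p, hp⟩ := eq_poly1 (inj_of_der d (d1 ▸ one_ne_zero) d2 hC _
      (e.symm.trans Polynomial.derivative_C))
    have := linear_of_poly1 hQ hp
    omega
  refine ⟨(z, w), D, fun a => not_gen_of_alg (halg _) (halg _), hQ, hd, ?_, hD⟩
  have := hom_aeval (k := k) (Polynomial.evalRingHom z)
    (fun c => by simp [Polynomial.algebraMap_apply]) Polynomial.X (Polynomial.C w) Q
  rw [Polynomial.coe_evalRingHom, hz.eq_zero] at this
  simpa [ev] using this.symm

lemma der_thru {L : Type} [Field L] [Algebra k L] (D : Derivation k L L) (B : L × L) {t : L}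
    (ht : t ≠ 0) :
    D (thru B t).2 = D B.1 / t - t * D B.2 - (B.1 / t ^ 2 + B.2) * D t := by
  simp only [thru, map_sub, Derivation.leibniz_div, Derivation.leibniz, smul_eq_mul]
  field_simp
  ring

lemma der_curve {L : Type} [Field L] [Algebra k L] (D : Derivation k L L) {Q : R2 k} {B : L × L}
    (h : ev B Q = 0) (h0 : ev B (pderiv 0 Q) ≠ 0) : D B.1 = qv Q B * D B.2 := by
  have := der_ev D B Q
  rw [h, map_zero] at this
  rw [qv]
  field_simp
  linear_combination -this

namespace GP

variable [IsAlgClosed k] [CharZero k] {Q : R2 k} {A : κ × κ} {D : Derivation k κ κ} (h : GP Q A D)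
include h

omit [CharZero k] in
lemma tr2 : Transcendental k A.2 := tr_of_der (h.dw ▸ one_ne_zero)

lemma tr1 : Transcendental k A.1 := (tr_both h.irr h.deg h.zero (.inr h.tr2)).1

lemma Qz : ev A (pderiv 0 Q) ≠ 0 := H1_0 h.irr h.zero h.tr2

lemma Qw : ev A (pderiv 1 Q) ≠ 0 := H1_1 h.irr h.zero h.tr1

lemma dz : D A.1 = qv Q A := by rw [der_curve D h.zero h.Qz, h.dw, mul_one]

lemma q_ne : qv Q A ≠ 0 := div_ne_zero (neg_ne_zero.2 h.Qw) h.Qz

lemma dvd {F : R2 k} (hF : ev A F = 0) : Q ∣ F := (H1 h.irr h.zero (.inr h.tr2) F).1 hF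

lemma low {F : R2 k} (hF : ev A F = 0) (hd : F.totalDegree < Q.totalDegree) : F = 0 := by
  by_contra h0
  exact absurd (totalDegree_le_of_dvd_of_isDomain (h.dvd hF) h0) (not_le.2 hd)

omit [IsAlgClosed k] in
lemma d_ne {f : κ} (hf : Transcendental k f) : D f ≠ 0 :=
  der_ne_zero h.td D (h.dw ▸ one_ne_zero) hf

lemma no_line (a b : k) : A.1 ≠ algebraMap k κ a * A.2 + algebraMap k κ b := fun e => by
  have h1 : (X 0 - (C a * X 1 + C b) : R2 k).totalDegree ≤ 1 :=
    (totalDegree_sub _ _).trans (max_le (totalDegree_X _).le ((totalDegree_add _ _).trans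
      (max_le ((totalDegree_mul _ _).trans (by simp)) (by simp))))
  have := h.low (F := X 0 - (C a * X 1 + C b)) (by simp [← e]) (by have := h.deg; omega)
  have h2 := congrArg (pderiv 0) this
  simp at h2

lemma q_tr : Transcendental k (qv Q A) := tr_of_not_mem fun c e => by
  refine h.d_ne (f := A.1 - algebraMap k κ c * A.2) (tr_of_not_mem fun d e2 => ?_) ?_
  · exact h.no_line c d (by rw [← e2]; ring)
  · simp [h.dz, h.dw, e]

lemma thru_tr {t : κ} (ht : t ≠ 0) :
    Transcendental k (thru A t).1 ∨ Transcendental k (thru A t).2 := by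
  by_contra hn
  rw [not_or] at hn
  obtain ⟨a, ha⟩ := not_forall.1 fun h => hn.1 (tr_of_not_mem h)
  obtain ⟨b, hb⟩ := not_forall.1 fun h => hn.2 (tr_of_not_mem h)
  rw [not_not] at ha hb
  simp only [thru] at ha hb
  refine h.no_line (a ^ 2) (a * b) ?_
  rw [map_pow, map_mul, ← ha, ← hb]
  field_simp
  ring

variable {s : κ} (hs : s ^ 2 = qv Q A)
include hs

lemma s_tr : Transcendental k s := fun e => h.q_tr (hs ▸ e.pow 2)

lemma s_ne : s ≠ 0 := fun e => h.s_tr hs (e ▸ isAlgebraic_zero)

lemma ds_ne : D s ≠ 0 := h.d_ne (h.s_tr hs)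

lemma dP : D (thru A s).2 = -(A.1 / s ^ 2 + A.2) * D s := by
  have := h.s_ne hs
  rw [der_thru D A this, h.dz, h.dw, ← hs]
  field_simp
  ring

lemma env0 {B : κ × κ} (hB : On (thru A s) B) (e : D B.1 / s - s * D B.2 = 0) : B = A := by
  have : CharZero κ := charZero_of_injective_algebraMap (algebraMap k κ).injective
  have h0 := h.s_ne hs
  have e1 := der_thru D B h0
  rw [show thru B s = thru A s from On.thru hB, h.dP hs, e, zero_sub, ← neg_mul] at e1
  have e2 := mul_right_cancel₀ (h.ds_ne hs) e1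
  have e3 : A.1 / s - A.2 * s = B.1 / s - B.2 * s := hB
  field_simp at e2 e3
  have e4 : B.1 = A.1 := by linear_combination (e2 - e3) / 2
  refine Prod.ext e4 (mul_left_cancel₀ (pow_ne_zero 2 h0) ?_)
  linear_combination (e2 + e3) / 2

/-- (ENV) -/
lemma env {Q' : R2 k} (hQ' : Irreducible Q') {x : κ} (h0 : (fl Q' (thru A s)).eval x = 0)
    (h1 : (fl Q' (thru A s)).derivative.eval x = 0) : pt (thru A s) x = A := by
  have : CharZero κ := charZero_of_injective_algebraMap (algebraMap k κ).injective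
  have hs0 := h.s_ne hs
  rw [eval_fl] at h0
  rw [eval_derivative_fl, yv] at h1
  refine h.env0 hs (on_pt hs0 x) ?_
  set B := pt (thru A s) x
  have e := der_ev D B Q'
  rw [h0, map_zero] at e
  change _ * s + _ / s = 0 at h1
  field_simp at h1
  by_contra hn
  have a1 : ev B (pderiv 0 Q') = 0 := by
    refine (mul_eq_zero.1 ?_).resolve_right hn
    field_simp
    linear_combination -e - D B.2 * h1
  have a2 : ev B (pderiv 1 Q') = 0 := by simpa [a1] using h1
  by_cases h2 : D B.1 = 0
  · by_cases h3 : D B.2 = 0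
    · simp [h2, h3] at hn
    · exact H1_0 hQ' h0 (tr_of_der h3) a1
  · exact H1_1 hQ' h0 (tr_of_der h2) a2

lemma yv_zero : yv Q (thru A s) A = 0 := by
  have h0 := h.s_ne hs
  have h1 := h.Qz
  rw [qv, eq_div_iff h1] at hs
  change _ * s + _ / s = 0
  field_simp
  linear_combination hs

lemma mult_two : (fl Q (thru A s)).rootMultiplicity (pos (thru A s) A) = 2 := by
  have : CharZero κ := charZero_of_injective_algebraMap (algebraMap k κ).injective
  have h0 := h.s_ne hs
  have hne : fl Q (thru A s) ≠ 0 := fl_ne h.irr.ne_zero (h.s_tr hs)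
  have hp : pt (thru A s) (pos (thru A s) A) = A := pt_pos h0 (on_thru A s)
  refine le_antisymm ?_ ((Polynomial.one_lt_rootMultiplicity_iff_isRoot hne).2 ⟨?_, ?_⟩)
  · by_contra hlt
    have e := (Polynomial.lt_rootMultiplicity_iff_isRoot_iterate_derivative hne).1
      (not_le.1 hlt) 2 le_rfl
    simp only [Function.iterate_succ, Function.iterate_zero, Function.comp_apply, id_eq,
      Polynomial.IsRoot, derivative_fl, map_add, Polynomial.derivative_mul,
      Polynomial.derivative_C, mul_zero, add_zero, Polynomial.eval_add, Polynomial.eval_mul,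
      Polynomial.eval_C, eval_fl, hp] at e
    have e1 : ev A (pderiv 0 Q) * qv Q A + ev A (pderiv 1 Q) = 0 := by
      have := h.Qz
      rw [qv]
      field_simp
      ring
    have e2 := congrArg D e1
    rw [map_add, Derivation.leibniz, der_ev, der_ev, h.dz, h.dw, map_zero, smul_eq_mul,
      smul_eq_mul] at e2
    refine mul_ne_zero h.Qz (h.d_ne h.q_tr) ?_
    rw [← hs] at e2 ⊢
    change (_ * s + _ * s⁻¹) * s + (_ * s + _ * s⁻¹) * s⁻¹ = 0 at e
    field_simp at e
    linear_combination e2 - e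
  · rw [Polynomial.IsRoot, eval_fl, hp, h.zero]
  · rw [Polynomial.IsRoot, eval_derivative_fl, hp, h.yv_zero hs]

/-- (NV) -/
lemma nv (h3 : 3 ≤ Q.totalDegree) (J : QF k) (hJ : J.c0 ≠ 0 ∨ J.b1 ≠ 0 ∨ J.b2 ≠ 0) (c : k) :
    ev (thru A s) (J.lev c) ≠ 0 := fun e => by
  have : CharZero κ := charZero_of_injective_algebraMap (algebraMap k κ).injective
  have h0 := h.s_ne hs
  have hd := h.ds_ne hs
  obtain ⟨c0, b1, b2, B, c1, A'⟩ := J
  simp only [QF.lev, map_add, map_mul, map_pow, ev_C, ev_X0, ev_X1, thru] at e hJ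
  generalize c1 - c = c' at e
  have hz := h.dz
  have hw := h.dw
  have ht := h.tr2
  have hl := h.low (F := (⟨b1 ^ 2 - 4 * B * c0, 2 * b1 * b2 - 4 * c0 * c', b2 ^ 2 - 4 * A' * c0,
    2 * b1 * c' - 4 * B * b2, 4 * A' * b1 - 2 * b2 * c', c' ^ 2 - 4 * A' * B⟩ : Conic k).poly)
  rw [← hs] at hz
  obtain ⟨z, w⟩ := A
  obtain ⟨p, hp⟩ : ∃ p, p = z - w * s ^ 2 := ⟨_, rfl⟩
  have dp : D p = -2 * w * s * D s := by
    simp only at hz hw
    simp only [hp, map_sub, Derivation.leibniz, Derivation.leibniz_pow, smul_eq_mul, hz, hw,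
      nsmul_eq_mul]
    push_cast
    ring
  have e0 : algebraMap k κ c0 * p ^ 2 + p * (algebraMap k κ b1 * s ^ 2 + algebraMap k κ b2) +
      algebraMap k κ B * s ^ 4 + algebraMap k κ c' * s ^ 2 + algebraMap k κ A' = 0 := by
    rw [← e, hp]
    field_simp
  have r2 : algebraMap k κ c' - w * algebraMap k κ b2 +
      (2 * algebraMap k κ B - w * algebraMap k κ b1) * s ^ 2 +
      (algebraMap k κ b1 - 2 * algebraMap k κ c0 * w) * p = 0 := by
    have e1 := congrArg D e0
    simp only [map_add, Derivation.leibniz, Derivation.leibniz_pow, Derivation.map_algebraMap,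
      smul_eq_mul, map_zero, dp, nsmul_eq_mul] at e1
    refine mul_left_cancel₀ (mul_ne_zero (mul_ne_zero two_ne_zero h0) hd) ?_
    push_cast at e1
    linear_combination e1
  have r1 : 2 * algebraMap k κ A' + z * algebraMap k κ b2 +
      (algebraMap k κ c' + z * algebraMap k κ b1) * s ^ 2 +
      (algebraMap k κ b2 + 2 * algebraMap k κ c0 * z) * p = 0 := by
    linear_combination 2 * e0 - s ^ 2 * r2 - (algebraMap k κ b2 + algebraMap k κ b1 * s ^ 2 +
      2 * algebraMap k κ c0 * p) * hp
  have h4 := Conic.poly_inj (q' := ⟨0, 0, 0, 0, 0, 0⟩) ((hl (by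
    simp only [Conic.poly, map_add, map_mul, map_pow, map_sub, ev_C, ev_X0, ev_X1, map_ofNat]
    linear_combination
      (-(2 * algebraMap k κ B - w * algebraMap k κ b1) +
        w * (algebraMap k κ b1 - 2 * algebraMap k κ c0 * w)) * r1 +
      (algebraMap k κ c' + z * algebraMap k κ b1 -
        w * (algebraMap k κ b2 + 2 * algebraMap k κ c0 * z)) * r2 -
      ((algebraMap k κ c' + z * algebraMap k κ b1) *
        (algebraMap k κ b1 - 2 * algebraMap k κ c0 * w) -
        (algebraMap k κ b2 + 2 * algebraMap k κ c0 * z) *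
        (2 * algebraMap k κ B - w * algebraMap k κ b1)) * hp)
    ((Conic.totalDegree_le _).trans_lt h3)).trans (by simp [Conic.poly]))
  simp only [Conic.mk.injEq] at h4
  obtain ⟨n1, n2, n3, -⟩ := h4
  by_cases hc : c0 = 0
  · simp only [hc, mul_zero, sub_zero, pow_eq_zero_iff two_ne_zero] at n1 n3
    simp [hc, n1, n3] at hJ
  have m1 := congrArg (algebraMap k κ) n1
  have m2 := congrArg (algebraMap k κ) n2
  have m3 := congrArg (algebraMap k κ) n3
  simp only [map_sub, map_mul, map_pow, map_ofNat, map_zero] at m1 m2 m3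
  have u : algebraMap k κ b2 + algebraMap k κ b1 * s ^ 2 + 2 * algebraMap k κ c0 * p = 0 :=
    pow_eq_zero_iff two_ne_zero |>.1 (by
      linear_combination 4 * algebraMap k κ c0 * e0 + m3 + s ^ 4 * m1 + s ^ 2 * m2)
  have u1 := congrArg D u
  have d2 : D 2 = 0 := D.map_natCast 2
  simp only [map_add, Derivation.leibniz, Derivation.leibniz_pow, Derivation.map_algebraMap,
    smul_eq_mul, map_zero, dp, nsmul_eq_mul, d2] at u1
  have hc' : algebraMap k κ c0 ≠ 0 := by simpa using hc
  refine ht ((show w = algebraMap k κ (b1 / (2 * c0)) from ?_) ▸ isAlgebraic_algebraMap _)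
  rw [map_div₀, map_mul, map_ofNat, eq_div_iff (mul_ne_zero two_ne_zero hc')]
  refine mul_left_cancel₀ (mul_ne_zero (mul_ne_zero two_ne_zero h0) hd) ?_
  push_cast at u1
  linear_combination -u1

end GP

end Ivrii.S3
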