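import Pool.Agent.P.MP_7a8567_an.S3.Basic

/-! Points and lines: functoriality, the polynomial `fl`, lifting of embeddings. -/

open MvPolynomial

namespace Ivrii.S3

variable {k : Type} [Field k] {L L' : Type} [Field L] [Algebra k L] [Field L'] [Algebra k L']

section Hom

variable {G : Type*} [FunLike G L L'] [RingHomClass G L L'] (φ : G)

lemma hom_pt (l : L × L) (x : L) : Prod.map φ φ (pt l x) = pt (Prod.map φ φ l) (φ x) := by
  simp [pt, map_ofNat]

lemma hom_pos (l A : L × L) : φ (pos l A) = pos (Prod.map φ φ l) (Prod.map φ φ A) := by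
  simp [pos, map_ofNat]

lemma hom_thru (A : L × L) (t : L) : Prod.map φ φ (thru A t) = thru (Prod.map φ φ A) (φ t) := by
  simp [thru]

lemma hom_on {l A : L × L} (h : On l A) : On (Prod.map φ φ l) (Prod.map φ φ A) := by
  have := congrArg φ h
  simpa [On] using this

variable (h : ∀ c : k, φ (algebraMap k L c) = algebraMap k L' c)
include h

lemma hom_ev (a : L × L) (n : R2 k) : φ (ev a n) = ev (Prod.map φ φ a) n := hom_aeval φ h _ _ n

lemma hom_qv (Q : R2 k) (A : L × L) : φ (qv Q A) = qv Q (Prod.map φ φ A) := by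
  simp [qv, hom_ev φ h]

lemma hom_rfx (Q : R2 k) (l : L × L) (x : L) :
    Prod.map φ φ (rfx Q l x) = rfx Q (Prod.map φ φ l) (φ x) := by
  rw [rfx, hom_thru, map_div₀, hom_qv φ h, hom_pt]
  rfl

lemma hom_gen {l : L × L} : Gen k (Prod.map φ φ l) ↔ Gen k l := by
  simp only [gen_iff, ← hom_ev φ h, map_eq_zero]

end Hom

lemma map_fl (φ : L →+* L') (h : ∀ c : k, φ (algebraMap k L c) = algebraMap k L' c) (Q : R2 k)
    (l : L × L) : (fl Q l).map φ = fl Q (Prod.map φ φ l) := by
  have := hom_aeval (k := k) (Polynomial.mapRingHom φ)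
    (fun c => by simp [Polynomial.algebraMap_apply, h])
    (Polynomial.C l.1 * (Polynomial.X + Polynomial.C (l.2 / 2)))
    ((Polynomial.X - Polynomial.C (l.2 / 2)) * Polynomial.C l.1⁻¹) Q
  rw [Polynomial.coe_mapRingHom] at this
  rw [fl, this]
  simp [fl, map_ofNat]

lemma eval_aeval_line (l : L × L) (x : L) (n : R2 k) :
    (aeval ![Polynomial.C l.1 * (Polynomial.X + Polynomial.C (l.2 / 2)),
      (Polynomial.X - Polynomial.C (l.2 / 2)) * Polynomial.C l.1⁻¹] n).eval x = ev (pt l x) n := by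
  have := hom_aeval (k := k) (Polynomial.evalRingHom x)
    (fun c => by simp [Polynomial.algebraMap_apply])
    (Polynomial.C l.1 * (Polynomial.X + Polynomial.C (l.2 / 2)))
    ((Polynomial.X - Polynomial.C (l.2 / 2)) * Polynomial.C l.1⁻¹) n
  rw [Polynomial.coe_evalRingHom] at this
  rw [this]
  simp [ev, pt, div_eq_mul_inv]

lemma eval_fl (Q : R2 k) (l : L × L) (x : L) : (fl Q l).eval x = ev (pt l x) Q :=
  eval_aeval_line l x Q

lemma derivative_fl (Q : R2 k) (l : L × L) : (fl Q l).derivative =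
    fl (pderiv 0 Q) l * Polynomial.C l.1 + fl (pderiv 1 Q) l * Polynomial.C l.1⁻¹ := by
  have := der_aeval ((Polynomial.derivative' (R := L)).restrictScalars k)
    (Polynomial.C l.1 * (Polynomial.X + Polynomial.C (l.2 / 2)))
    ((Polynomial.X - Polynomial.C (l.2 / 2)) * Polynomial.C l.1⁻¹) Q
  simpa [fl] using this

lemma eval_derivative_fl (Q : R2 k) (l : L × L) (x : L) :
    (fl Q l).derivative.eval x = yv Q l (pt l x) := by
  simp [derivative_fl, eval_fl, yv, div_eq_mul_inv]

lemma natDegree_fl_aux (l : L × L) (m : Fin 2 →₀ ℕ) (c : k) :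
    fl (monomial m c) l = Polynomial.C (algebraMap k L c * l.1 ^ m 0 * l.1⁻¹ ^ m 1) *
      ((Polynomial.X + Polynomial.C (l.2 / 2)) ^ m 0 *
        (Polynomial.X - Polynomial.C (l.2 / 2)) ^ m 1) := by
  rw [fl, aeval_monomial, Finsupp.prod_fintype _ _ (by simp), Fin.prod_univ_two]
  simp only [Polynomial.algebraMap_apply, Matrix.cons_val_zero, Matrix.cons_val_one, map_mul,
    map_pow, mul_pow]
  ring

lemma fl_sum (Q : R2 k) (l : L × L) : fl Q l = ∑ m ∈ Q.support, fl (monomial m (Q.coeff m)) l := by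
  conv_lhs => rw [Q.as_sum, fl, map_sum]
  rfl

lemma deg_le {Q : R2 k} {m : Fin 2 →₀ ℕ} (hm : m ∈ Q.support) : m 0 + m 1 ≤ Q.totalDegree := by
  have := le_totalDegree hm
  rwa [Finsupp.sum_fintype _ _ (by simp), Fin.sum_univ_two] at this

lemma monic_aux (a : L) (i j : ℕ) :
    ((Polynomial.X + Polynomial.C a) ^ i * (Polynomial.X - Polynomial.C a) ^ j).Monic ∧
      ((Polynomial.X + Polynomial.C a) ^ i * (Polynomial.X - Polynomial.C a) ^ j).natDegree =
        i + j := by
  have h1 := (Polynomial.monic_X_add_C a).pow i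
  have h2 := (Polynomial.monic_X_sub_C a).pow j
  refine ⟨h1.mul h2, ?_⟩
  rw [h1.natDegree_mul h2, Polynomial.natDegree_pow, Polynomial.natDegree_pow,
    Polynomial.natDegree_X_add_C, Polynomial.natDegree_X_sub_C, mul_one, mul_one]

lemma natDegree_fl_le (Q : R2 k) (l : L × L) : (fl Q l).natDegree ≤ Q.totalDegree := by
  rw [fl_sum]
  refine Polynomial.natDegree_sum_le_of_forall_le _ _ fun m hm => ?_
  rw [natDegree_fl_aux]
  exact (Polynomial.natDegree_C_mul_le _ _).trans ((monic_aux _ _ _).2.trans_le (deg_le hm))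

/-- The top coefficient depends only on the direction. -/
lemma coeff_fl_top (Q : R2 k) (hQ : Q ≠ 0) : ∃ p : Polynomial k, p ≠ 0 ∧
    ∀ (L : Type) [Field L] [Algebra k L] (l : L × L), l.1 ≠ 0 →
      l.1 ^ Q.totalDegree * (fl Q l).coeff Q.totalDegree = Polynomial.aeval l.1 p := by
  classical
  refine ⟨∑ m ∈ Q.support with m 0 + m 1 = Q.totalDegree,
    Polynomial.monomial (2 * m 0) (Q.coeff m), ?_, fun L _ _ l hl => ?_⟩
  · obtain ⟨m, hm, e⟩ := Finset.exists_mem_eq_sup _ (support_nonempty.2 hQ)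
      fun s : Fin 2 →₀ ℕ => s.sum fun _ e => e
    rw [Finsupp.sum_fintype _ _ (by simp), Fin.sum_univ_two] at e
    intro h
    have := congrArg (fun p => p.coeff (2 * m 0)) h
    simp only [Polynomial.finsetSum_coeff, Polynomial.coeff_monomial, Polynomial.coeff_zero] at this
    rw [Finset.sum_eq_single m, if_pos rfl] at this
    · exact mem_support_iff.1 hm this
    · intro m' hm' hne
      refine if_neg fun h2 => hne ?_
      have h3 := (Finset.mem_filter.1 hm').2
      have h4 : Q.totalDegree = m 0 + m 1 := e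
      ext i
      fin_cases i <;> simp <;> omega
    · exact fun h2 => absurd (Finset.mem_filter.2 ⟨hm, e.symm⟩) h2
  · rw [fl_sum, Polynomial.finsetSum_coeff, Finset.mul_sum, map_sum, Finset.sum_filter]
    refine Finset.sum_congr rfl fun m hm => ?_
    rw [natDegree_fl_aux, Polynomial.coeff_C_mul]
    obtain ⟨h1, h2⟩ := monic_aux (l.2 / 2) (m 0) (m 1)
    split_ifs with h
    · rw [← h]
      nth_rewrite 2 [← h2]
      rw [h1.coeff_natDegree, Polynomial.aeval_monomial, inv_pow]
      field_simp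
      ring
    · rw [Polynomial.coeff_eq_zero_of_natDegree_lt (h2.trans_lt (lt_of_le_of_ne (deg_le hm) h)),
        mul_zero, mul_zero]

lemma coeff_fl_ne {Q : R2 k} (hQ : Q ≠ 0) {l : L × L} (ht : Transcendental k l.1) :
    (fl Q l).coeff Q.totalDegree ≠ 0 := fun h => by
  obtain ⟨p, hp, H⟩ := coeff_fl_top Q hQ
  have := H L l fun e => ht (e ▸ isAlgebraic_zero)
  rw [h, mul_zero] at this
  exact hp (transcendental_iff.1 ht p this.symm)

lemma natDegree_fl {Q : R2 k} (hQ : Q ≠ 0) {l : L × L} (ht : Transcendental k l.1) :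
    (fl Q l).natDegree = Q.totalDegree :=
  le_antisymm (natDegree_fl_le Q l) (Polynomial.le_natDegree_of_ne_zero (coeff_fl_ne hQ ht))

lemma fl_ne {Q : R2 k} (hQ : Q ≠ 0) {l : L × L} (ht : Transcendental k l.1) : fl Q l ≠ 0 :=
  fun h => coeff_fl_ne hQ ht (by simp [h])

lemma mem_Rts {Q : R2 k} {l : L × L} (h : fl Q l ≠ 0) {x : L} :
    x ∈ Rts Q l ↔ ev (pt l x) Q = 0 := by
  simp [Rts, h, eval_fl]

lemma on_thru (A : L × L) (t : L) : On (thru A t) A := rfl

lemma On.thru {l A : L × L} (h : On l A) : thru A l.1 = l := Prod.ext rfl h.symm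

variable [CharZero L]

lemma on_pt {l : L × L} (hl : l.1 ≠ 0) (x : L) : On l (pt l x) := by
  simp only [On, pt]
  field_simp
  ring

lemma pos_pt {l : L × L} (hl : l.1 ≠ 0) (x : L) : pos l (pt l x) = x := by
  simp only [pos, pt]
  field_simp
  ring

lemma pt_pos {l A : L × L} (hl : l.1 ≠ 0) (h : On l A) : pt l (pos l A) = A := by
  have h' : l.2 = _ := h
  ext
  · simp only [pos, pt, h']
    field_simp
    ring
  · simp only [pos, pt, h']
    field_simp
    ring

omit [CharZero L] in
/-- The point of a generic line on a curve has transcendental coordinates. -/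
lemma tr_of_on [IsAlgClosed k] {l A : L × L} (hl : Gen k l) (h : On l A) :
    Transcendental k A.1 ∨ Transcendental k A.2 := by
  by_contra hn
  rw [not_or] at hn
  obtain ⟨a, ha⟩ := not_forall.1 fun h => hn.1 (tr_of_not_mem h)
  obtain ⟨b, hb⟩ := not_forall.1 fun h => hn.2 (tr_of_not_mem h)
  rw [not_not] at ha hb
  have h' : l.2 = _ := h
  have := gen_iff.1 hl (X 0 * X 1 - C a + C b * X 0 ^ 2) (by
    have := Gen_ne hl
    simp only [map_add, map_sub, map_mul, map_pow, ev_X0, ev_X1, ev_C, h', ← ha, ← hb]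
    field_simp
    ring)
  have h2 := congrArg (fun p => pderiv 0 (pderiv 1 p)) this
  simp at h2

omit [CharZero L] in
/-- A generic line can be sent to any generic line of an algebraically closed field. -/
lemma lift_gen (td : TD2 k L) [IsAlgClosed L'] {l : L × L} (hl : Gen k l) {l' : L' × L'}
    (hl' : Gen k l') : ∃ ψ : L →ₐ[k] L', Prod.map ψ ψ l = l' := by
  let _ := (ev (k := k) l).toAlgebra
  let _ := (ev (k := k) l').toAlgebra
  have i1 : IsScalarTower k (R2 k) L := .of_algebraMap_eq fun a => ((ev l).commutes a).symm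
  have i2 : IsScalarTower k (R2 k) L' := .of_algebraMap_eq fun a => ((ev l').commutes a).symm
  have : FaithfulSMul (R2 k) L := (faithfulSMul_iff_algebraMap_injective _ _).2 hl
  have : FaithfulSMul (R2 k) L' := (faithfulSMul_iff_algebraMap_injective _ _).2 hl'
  have h1 := IntermediateField.isAlgebraic_adjoin_iff_top.1 (td l hl)
  have : Algebra.IsAlgebraic (R2 k) L := by
    have e : Set.range ![l.1, l.2] = {l.1, l.2} := by simp [Set.pair_comm]
    rw [← e] at h1
    exact (Algebra.IsAlgebraic.of_ringHom_of_comp_eq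
      (AlgebraicIndependent.aevalEquiv hl) (RingHom.id L)
      (AlgebraicIndependent.aevalEquiv hl).surjective Function.injective_id
      (RingHom.ext fun p => AlgebraicIndependent.algebraMap_aevalEquiv hl p))
  let ψ : L →ₐ[R2 k] L' := IsAlgClosed.lift
  refine ⟨ψ.restrictScalars k, Prod.ext ?_ ?_⟩
  · exact (congrArg ψ (ev_X0 l).symm).trans ((ψ.commutes (X 0)).trans (ev_X0 l'))
  · exact (congrArg ψ (ev_X1 l).symm).trans ((ψ.commutes (X 1)).trans (ev_X1 l'))

end Ivrii.S3
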