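import Pool.Agent.P.MP_7a8567_an.S3.Env
import Pool.Agent.P.MP_7a8567_an.Stm

/-! Interface statements inside section 3. -/

namespace Ivrii.S3

/-- a generic line in a field with an endomorphism acting as a transposition on the roots -/
def TM (k : Type) [Field k] : Prop :=
  ∀ Q : R2 k, Irreducible Q → 2 ≤ Q.totalDegree →
    ∃ (L : Type) (_ : Field L) (_ : Algebra k L) (l : L × L) (σ : L →ₐ[k] L) (a : L)
      (x : Fin Q.totalDegree → L) (i j : Fin Q.totalDegree), Gen k l ∧ i ≠ j ∧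
      Function.Injective x ∧
      fl Q l = Polynomial.C a * ∏ m, (Polynomial.X - Polynomial.C (x m)) ∧
      σ l.1 = l.1 ∧ σ l.2 = l.2 ∧ ∀ m, σ (x m) = x (Equiv.swap i j m)

/-- two-transitivity up to the orientation of the line -/
def TT (k Ω : Type) [Field k] [Field Ω] [Algebra k Ω] : Prop :=
  ∀ (Q : R2 k) (l : Ω × Ω) (x y x' y' : Ω), Irreducible Q → 2 ≤ Q.totalDegree → Gen k l →
    x ∈ Rts Q l → y ∈ Rts Q l → x' ∈ Rts Q l → y' ∈ Rts Q l → x ≠ y → x' ≠ y' →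
    ∃ (ρ : Ω ≃ₐ[k] Ω) (ε : Ω), (ε = 1 ∨ ε = -1) ∧ ρ l.1 = ε * l.1 ∧ ρ l.2 = ε * l.2 ∧
      ρ x = ε * x' ∧ ρ y = ε * y'

/-- the closure lemma combined with Theorem A -/
def CL {k : Type} [Field k] (τ : k →+* k) (κ : Type) [Field κ] [Algebra k κ] : Prop :=
  ∀ (Q : R2 k) (A : κ × κ) (D : Derivation k κ κ) (C : R2 k → Prop) (N : R2 k), GP Q A D →
    RealC τ Q → 3 ≤ Q.totalDegree → N ≠ 0 → (∀ π, C π → Irreducible π ∧ π ∣ N) →
    (∀ π t, C π → t ≠ 0 → ev (thru A t) π = 0 →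
      ∃ π', C π' ∧ ev (thru A (qv Q A / t)) π' = 0) →
    ∀ π, C π → Associated π (MvPolynomial.X 0)

end Ivrii.S3
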