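import Pool.Agent.P.MP_7a8567_an.S3.TM
import Pool.Agent.P.MP_7a8567_an.S3.Gal
import Pool.Agent.P.MP_7a8567_an.T.Cl0

set_option autoImplicit false

/-! Two-transitivity on the points of a generic line section. -/

namespace Ivrii.S3

open MvPolynomial

variable {k Ω : Type} [Field k] [Field Ω] [Algebra k Ω] [IsAlgClosed k]

lemma tt_alg {Q : R2 k} (hQ : Irreducible Q) (hd : 2 ≤ Q.totalDegree) {A : Ω × Ω}
    (h0 : ev A Q = 0) (ht : Transcendental k A.2) : A.1 ∈ T.cl k {A.2} := by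
  let w : Algebra.adjoin k {A.2} := ⟨A.2, Algebra.subset_adjoin rfl⟩
  let p : Polynomial (Algebra.adjoin k {A.2}) := aeval ![Polynomial.X, Polynomial.C w] Q
  have key : ∀ z : Ω, Polynomial.aeval z p = ev (z, A.2) Q := fun z => by
    have := hom_aeval (k := k) (Polynomial.aeval (R := Algebra.adjoin k {A.2}) z)
      (fun c => by
        rw [IsScalarTower.algebraMap_apply k (Algebra.adjoin k {A.2}) (Polynomial _),
          AlgHom.commutes]
        rfl) Polynomial.X (Polynomial.C w) Q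
    rw [Polynomial.aeval_X, Polynomial.aeval_C] at this
    exact this
  refine ⟨p, fun e => ?_, (key A.1).trans h0⟩
  have h1 : ev (0, A.2) Q = 0 := by rw [← key, e, map_zero]
  exact (tr_both hQ hd h1 (.inr ht)).1 isAlgebraic_zero

omit [IsAlgClosed k] in
lemma tt_dir {l A B : Ω × Ω} (ht : l.1 ≠ 0) (hA : On l A) (hB : On l B) :
    l.1 ^ 2 * (A.2 - B.2) = A.1 - B.1 := by
  have h1 : l.2 = _ := hA
  have h2 : l.2 = _ := hB
  rw [h1] at h2
  field_simp at h2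
  linear_combination -h2

omit [IsAlgClosed k] in
lemma tt_w_ne {l A B : Ω × Ω} (ht : l.1 ≠ 0) (hA : On l A) (hB : On l B) (h : A ≠ B) :
    A.2 - B.2 ≠ 0 := fun e => h (Prod.ext (by
      have := tt_dir ht hA hB
      rw [e, mul_zero] at this
      exact (sub_eq_zero.1 this.symm)) (sub_eq_zero.1 e))

lemma tt_tr {Q : R2 k} (hQ : Irreducible Q) (hd : 2 ≤ Q.totalDegree) {l A B : Ω × Ω}
    (hl : Gen k l) (hA : On l A) (hB : On l B) (h : A ≠ B) (h0 : ev A Q = 0) :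
    Transcendental (Fd k A) B.1 ∨ Transcendental (Fd k A) B.2 := by
  by_contra hn
  rw [not_or, Transcendental, Transcendental, not_not, not_not] at hn
  have ht := Gen_ne hl
  have hz := tt_alg hQ hd h0 (tr_both hQ hd h0 (tr_of_on hl hA)).2
  have hw : A.2 ∈ T.cl k {A.2} := T.mem_cl rfl
  have hs : T.cl k {A.1, A.2} ⊆ T.cl k {A.2} := T.cl_subset_cl (by
    rintro _ (rfl | rfl)
    exacts [hz, hw])
  have h1 : B.1 ∈ T.cl k {A.2} := hs (IntermediateField.isAlgebraic_adjoin_iff.1 hn.1)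
  have h2 : B.2 ∈ T.cl k {A.2} := hs (IntermediateField.isAlgebraic_adjoin_iff.1 hn.2)
  have h3 : l.1 ∈ T.cl k {A.2} := T.cl_of_pow two_ne_zero
    (T.cl_of_mul (T.cl_sub hw h2) (tt_w_ne ht hA hB h) (by
      rw [mul_comm, tt_dir ht hA hB]; exact T.cl_sub hz h1))
  have h4 : l.2 ∈ T.cl k {A.2} := by
    rw [show l.2 = _ from hA]
    exact T.cl_sub (T.cl_div hz h3) (T.cl_mul hw h3)
  exact not_gen_of_alg h3 h4 hl

omit [IsAlgClosed k] in
lemma tt_ev_map (X : IntermediateField k Ω) (B : Ω × Ω) (Q : R2 k) :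
    ev B (MvPolynomial.map (algebraMap k X) Q) = ev B Q := by
  simp only [ev, aeval_map_algebraMap]

theorem tt [CharZero k] [IsAlgClosed Ω] : TT k Ω := by
  intro Q l x y x' y' hQ hd hl hx hy hx' hy' hxy hxy'
  have : CharZero Ω := charZero_of_injective_algebraMap (algebraMap k Ω).injective
  have ht := Gen_ne hl
  have hf : fl Q l ≠ 0 := fl_ne hQ.ne_zero (Gen_tr1 hl)
  rw [mem_Rts hf] at hx hy hx' hy'
  have hne : ∀ {a b : Ω}, a ≠ b → pt l a ≠ pt l b := fun {a b} h e =>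
    h (by rw [← pos_pt ht a, e, pos_pt ht])
  obtain ⟨ρ₁, h1⟩ := exists_aut_of_ker (k := k) (ev (pt l x)) (ev (pt l x')) fun n => by
    rw [H1 hQ hx (tr_of_on hl (on_pt ht x)), H1 hQ hx' (tr_of_on hl (on_pt ht x'))]
  have e1 : Prod.map ρ₁ ρ₁ (pt l x) = pt l x' :=
    Prod.ext (by simpa using h1 (X 0)) (by simpa using h1 (X 1))
  have hl1 : Gen k (Prod.map ρ₁ ρ₁ l) := (hom_gen ρ₁ ρ₁.commutes).2 hl
  have hB1 : ev (Prod.map ρ₁ ρ₁ (pt l y)) Q = 0 := by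
    rw [← hom_ev ρ₁ ρ₁.commutes, hy, map_zero]
  have t1 := tt_tr hQ hd hl1 (e1 ▸ hom_on ρ₁ (on_pt ht x)) (hom_on ρ₁ (on_pt ht y))
    (fun e => hne hxy ((ρ₁.injective.prodMap ρ₁.injective) (e1.trans e))) hx'
  have t2 := tt_tr hQ hd hl (on_pt ht x') (on_pt ht y') (hne hxy') hx'
  have hirr := irreducible_map (L := Fd k (pt l x')) hQ
  obtain ⟨ρ₂, h2⟩ := exists_aut_of_ker (k := Fd k (pt l x')) (ev (Prod.map ρ₁ ρ₁ (pt l y)))
    (ev (pt l y')) fun n => by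
      rw [H1 hirr ((tt_ev_map _ _ _).trans hB1) t1, H1 hirr ((tt_ev_map _ _ _).trans hy') t2]
  let ρ : Ω ≃ₐ[k] Ω := ρ₁.trans (ρ₂.restrictScalars k)
  have hρ : ∀ a, ρ a = ρ₂ (ρ₁ a) := fun a => rfl
  have eA : Prod.map ρ ρ (pt l x) = pt l x' := by
    have a1 : ρ₁ (pt l x).1 = (pt l x').1 := congrArg Prod.fst e1
    have a2 : ρ₁ (pt l x).2 = (pt l x').2 := congrArg Prod.snd e1
    refine Prod.ext ?_ ?_
    · change ρ₂ (ρ₁ (pt l x).1) = _
      rw [a1]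
      exact ρ₂.commutes ⟨(pt l x').1, IntermediateField.subset_adjoin _ _ (.inl rfl)⟩
    · change ρ₂ (ρ₁ (pt l x).2) = _
      rw [a2]
      exact ρ₂.commutes ⟨(pt l x').2, IntermediateField.subset_adjoin _ _ (.inr rfl)⟩
  have eB : Prod.map ρ ρ (pt l y) = pt l y' :=
    Prod.ext (by simpa [hρ] using h2 (X 0)) (by simpa [hρ] using h2 (X 1))
  have ht' : (Prod.map ρ ρ l).1 ≠ 0 := (map_ne_zero ρ).2 ht
  have oA : On (Prod.map ρ ρ l) (pt l x') := eA ▸ hom_on ρ (on_pt ht x)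
  have oB : On (Prod.map ρ ρ l) (pt l y') := eB ▸ hom_on ρ (on_pt ht y)
  have hsq : ρ l.1 ^ 2 = l.1 ^ 2 :=
    mul_right_cancel₀ (tt_w_ne ht (on_pt ht x') (on_pt ht y') (hne hxy'))
      ((tt_dir ht' oA oB).trans (tt_dir ht (on_pt ht x') (on_pt ht y')).symm)
  obtain ⟨ε, hε, e⟩ : ∃ ε : Ω, (ε = 1 ∨ ε = -1) ∧ ρ l.1 = ε * l.1 := by
    rcases sq_eq_sq_iff_eq_or_eq_neg.1 hsq with h | h
    · exact ⟨1, .inl rfl, by rw [h, one_mul]⟩
    · exact ⟨-1, .inr rfl, by rw [h, neg_one_mul]⟩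
  have hpos : ∀ A : Ω × Ω, pos (Prod.map ρ ρ l) A = ε * pos l A := fun A => by
    simp only [pos, Prod.map_fst, e]
    rcases hε with rfl | rfl <;> field_simp <;> ring
  refine ⟨ρ, ε, hε, e, ?_, ?_, ?_⟩
  · have a1 : ρ l.2 = _ := oA
    have a2 : l.2 = _ := on_pt ht x'
    rw [a1, Prod.map_fst, e]
    generalize pt l x' = A at a2
    rw [a2]
    rcases hε with rfl | rfl <;> field_simp <;> ring
  · rw [← pos_pt ht x, hom_pos, eA, hpos, pos_pt ht]
  · rw [← pos_pt ht y, hom_pos, eB, hpos, pos_pt ht]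

end Ivrii.S3
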