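import Pool.Agent.P.MP_7a8567_an.S3.TM
import Pool.Agent.P.MP_7a8567_an.Alg.Disc

/-! The tangent model (TAN) and the tangent prime. -/

open Ivrii.PX

namespace Ivrii.S3

section Enum

open Polynomial

variable {L : Type} [Field L]

lemma enum {f : L[X]} {n : ℕ} (hf : f.natDegree = n) (h0 : f ≠ 0) (R : Finset L)
    (hR : R.card = n) (hr : ∀ z ∈ R, f.eval z = 0) : ∃ x : Fin n → L, Function.Injective x ∧
      (∀ m, x m ∈ R) ∧ (∀ z ∈ R, ∃ m, x m = z) ∧ f = C (f.coeff n) * ∏ m, (X - C (x m)) := by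
  have e := roots_eq_of_natDegree_le_card_of_ne_zero hr (hf.trans hR.symm).le h0
  let φ := (R.equivFinOfCardEq hR).symm
  refine ⟨fun m => φ m, Subtype.val_injective.comp φ.injective, fun m => (φ m).2,
    fun z hz => ⟨φ.symm ⟨z, hz⟩, by simp⟩, ?_⟩
  rw [Equiv.prod_comp φ fun z => X - C (z : L), Finset.prod_coe_sort R fun z => X - C z,
    Finset.prod_eq_multiset_prod, ← e, ← hf]
  exact (C_leadingCoeff_mul_prod_multiset_X_sub_C (by rw [e, hf]; exact hR)).symm

lemma vdm_swap {n : ℕ} (σ : L →+* L) (x : Fin n → L) {i j : Fin n} (hij : i ≠ j)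
    (h : ∀ m, σ (x m) = x (Equiv.swap i j m)) :
    σ (Matrix.vandermonde x).det = -(Matrix.vandermonde x).det := by
  have e : σ.mapMatrix (Matrix.vandermonde x) =
      (Matrix.vandermonde x).submatrix (Equiv.swap i j) id := by
    ext a b
    simp [h]
  rw [RingHom.map_det, e, Matrix.det_permute, Equiv.Perm.sign_swap hij]
  simp

lemma odd_order [CharZero L] {V : LaurentSeries L} (h0 : V ≠ 0) (h : rot (-1) V = -V) :
    Odd V.order := by
  by_contra hn
  have e := congrArg (fun f => HahnSeries.coeff f V.order) h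
  simp only [coeff_rot, (Int.not_odd_iff_even.1 hn).neg_one_zpow, Units.val_one, one_mul,
    HahnSeries.coeff_neg] at e
  exact h0 (HahnSeries.coeff_order_eq_zero.1 (self_eq_neg.1 e))

lemma sqrt_X [IsAlgClosed L] [CharZero L] {Δ : LaurentSeries L} (h : Res Δ 0)
    (h1 : Δ.coeff 1 ≠ 0) : ∃ r ρ, ρ ≠ 0 ∧ Res r ρ ∧ Δ = HahnSeries.single 1 1 * r ^ 2 := by
  obtain ⟨a, rfl, ha⟩ := h
  obtain ⟨b, rfl⟩ := PowerSeries.X_dvd_iff.2 ha
  have hb : PowerSeries.constantCoeff b ≠ 0 := by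
    have := HahnSeries.ofPowerSeries_apply_coeff (Γ := ℤ) (PowerSeries.X * b) 1
    rw [Nat.cast_one] at this
    rw [this] at h1
    simpa using h1
  obtain ⟨ρ, hρ⟩ := IsAlgClosed.exists_pow_nat_eq (PowerSeries.constantCoeff b) two_pos
  have h0 : ρ ≠ 0 := fun e => hb (by simp [← hρ, e])
  obtain ⟨y, y1, y2⟩ := hensel (X ^ 2 - C b) (c := ρ) (by simp [hρ]) (by simp [h0])
  refine ⟨_, ρ, h0, ⟨y, rfl, y1⟩, ?_⟩
  rw [eval_sub, eval_pow, eval_X, eval_C, sub_eq_zero] at y2
  rw [← y2]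
  simp

end Enum

open MvPolynomial

variable {k : Type} [Field k] {κ : Type} [Field κ] [Algebra k κ]

/-- A line moved parallel to itself. -/
noncomputable def l0 (b : κ × κ) : LaurentSeries κ × LaurentSeries κ :=
  (HahnSeries.C b.1, HahnSeries.C b.2 + HahnSeries.single 1 1)

/-- The same after ramification. -/
noncomputable def l2 (b : κ × κ) : LaurentSeries κ × LaurentSeries κ :=
  Prod.map (ram 2) (ram 2) (l0 b)

lemma res_l0 (b : κ × κ) : Res2 (l0 b) b := ⟨.C _, by simpa [l0] using (Res.C b.2).add .X⟩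

lemma jac_l0 (D : Derivation k κ κ) (b : κ × κ) :
    jac (dcoef D) (dU κ k) (l0 b) = HahnSeries.C (D b.1) := by
  simp only [jac, l0, map_add, dU_C, dU_X, dcoef_C]
  ring

lemma ram_alg (n : ℕ+) (c : k) :
    ram n (algebraMap k (LaurentSeries κ) c) = algebraMap k (LaurentSeries κ) c := ram_C _ _

lemma rot_ram2 (f : LaurentSeries κ) : rot (-1) (ram 2 f) = ram 2 f := rot_ram 2 (by simp) f

lemma root_l2 {Q : R2 k} {b : κ × κ} {y : LaurentSeries κ} (h : (fl Q (l0 b)).eval y = 0) :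
    (fl Q (l2 b)).eval (ram 2 y) = 0 := by
  rw [l2, ← map_fl _ (ram_alg 2), Polynomial.eval_map, Polynomial.eval₂_hom, h, map_zero]

lemma der_pt {L : Type} [Field L] [Algebra k L] [CharZero L] (E : Derivation k L L) {l : L × L}
    {x : L} (h0 : l.1 ≠ 0) (h1 : E l.1 = 0) (h2 : E l.2 = 1) (hx : E x = 0) (Q : R2 k) :
    E (ev (pt l x) Q) = ev (pt l x) (pderiv 0 Q) * (l.1 / 2) +
      ev (pt l x) (pderiv 1 Q) * (-(1 / 2) / l.1) := by
  have d2 : E 2 = 0 := E.map_natCast 2
  rw [der_ev]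
  simp only [pt, Derivation.leibniz, Derivation.leibniz_div, map_add, map_sub, d2, h1, h2, hx,
    smul_eq_mul]
  field_simp
  ring

lemma der_sq {L : Type} [Field L] [Algebra k L] (E : Derivation k L L) (b F : L) :
    E (b ^ 2 - 2 * 2 * F) = 2 * b * E b - 2 * 2 * E F := by
  have d2 : E 2 = 0 := E.map_natCast 2
  simp only [map_sub, Derivation.leibniz, Derivation.leibniz_pow, d2, smul_eq_mul, nsmul_eq_mul]
  push_cast
  ring

lemma sqrt_disc [IsAlgClosed κ] [CharZero κ] {b F : LaurentSeries κ} (rb : Res b 0) (rF : Res F 0)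
    (h1 : F.coeff 1 ≠ 0) :
    ∃ w, w ≠ 0 ∧ Res w 0 ∧ rot (-1) w = -w ∧ ram 2 b ^ 2 - 2 * 2 * ram 2 F = w ^ 2 := by
  have rΔ : Res (b ^ 2 - 2 * 2 * F) 0 := by
    have := (rb.pow 2).sub ((Res.two.mul .two).mul rF)
    rwa [mul_zero, sub_zero, zero_pow two_ne_zero] at this
  have e4 := rΔ.dU κ
  rw [der_sq] at e4
  have e5 := e4.unique (((Res.two.mul rb).mul (rb.dU κ)).sub ((Res.two.mul .two).mul (rF.dU κ)))
  obtain ⟨r, ρ, hρ, rr, hr⟩ := sqrt_X rΔ (by rw [e5]; simpa using h1)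
  refine ⟨HahnSeries.single 1 1 * ram 2 r,
    mul_ne_zero (HahnSeries.single_ne_zero one_ne_zero) ((rr.ram 2).ne_zero hρ), ?_, ?_, ?_⟩
  · have := Res.X.mul (rr.ram 2)
    rwa [zero_mul] at this
  · rw [map_mul, rot_ram2, rot_single, ← neg_mul, ← HahnSeries.single_neg]
    simp
  · have := congrArg (ram 2) hr
    rw [map_sub, map_mul, map_mul, map_mul, map_pow, map_pow, map_ofNat, ram_single] at this
    rw [this, mul_pow, HahnSeries.single_pow]
    simp

lemma quad_aux {L : Type} [Field L] [CharZero L] {b c x w : L} (q : Polynomial L)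
    (e : (b + 2 * x) ^ 2 - 2 * 2 * (x ^ 2 + (c + b * x)) = w ^ 2) :
    ((Polynomial.X ^ 2 + (Polynomial.C c + Polynomial.C b * Polynomial.X)) * q).eval
      ((w - b) / 2) = 0 := by
  simp only [Polynomial.eval_mul, Polynomial.eval_add, Polynomial.eval_pow, Polynomial.eval_X,
    Polynomial.eval_C]
  refine mul_eq_zero_of_left ?_ _
  linear_combination -e / 4

namespace GP

variable [IsAlgClosed k] [CharZero k] [IsAlgClosed κ] {Q : R2 k} {A : κ × κ}
  {D : Derivation k κ κ} (h : GP Q A D) {s : κ} (hs : s ^ 2 = qv Q A)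
include h hs

lemma quad : ∃ u v, u ≠ v ∧ Res u (pos (thru A s) A) ∧ Res v (pos (thru A s) A) ∧
    rot (-1) u = v ∧ rot (-1) v = u ∧ (fl Q (l2 (thru A s))).eval u = 0 ∧
      (fl Q (l2 (thru A s))).eval v = 0 := by
  have : CharZero κ := charZero_of_injective_algebraMap (algebraMap k κ).injective
  have h0 := h.s_ne hs
  have hp : pt (thru A s) (pos (thru A s) A) = A := pt_pos h0 (on_thru A s)
  have hm := h.mult_two hs
  have hne : fl Q (thru A s) ≠ 0 := fl_ne h.irr.ne_zero (h.s_tr hs)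
  have hy := h.yv_zero hs
  replace h0 : (thru A s).1 ≠ 0 := h0
  generalize thru A s = lb at *
  generalize pos lb A = xb at *
  obtain ⟨g, g1, g2⟩ := exists_fl_lift Q (res_l0 lb) h0
  obtain ⟨f, q, f1, rfl, f2, f3⟩ := wfactor_at g (g2 ▸ hne) xb
  rw [g2, hm] at f2
  have fd : f.natDegree = 2 := by
    rw [← f1.natDegree_map PowerSeries.constantCoeff, f2]
    simp
  have fe := f1.as_sum
  simp only [fd, Finset.sum_range_succ, Finset.range_zero, Finset.sum_empty, zero_add, pow_zero,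
    mul_one, pow_one] at fe
  have rb : Res (HahnSeries.ofPowerSeries ℤ κ (f.coeff 1)) (-2 * xb) := ⟨_, rfl, by
    rw [← Polynomial.coeff_map, f2, sub_eq_add_neg, ← map_neg, Polynomial.coeff_X_add_C_pow]
    simp [mul_comm]⟩
  have rc : Res (HahnSeries.ofPowerSeries ℤ κ (f.coeff 0)) (xb ^ 2) := ⟨_, rfl, by
    rw [← Polynomial.coeff_map, f2, sub_eq_add_neg, ← map_neg, Polynomial.coeff_X_add_C_pow]
    simp⟩
  have rq : Res ((q.map (HahnSeries.ofPowerSeries ℤ κ)).eval (HahnSeries.C xb))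
      ((q.map PowerSeries.constantCoeff).eval xb) := ⟨q.eval (PowerSeries.C xb), by
    rw [Polynomial.eval_map, ← Polynomial.eval₂_hom, HahnSeries.ofPowerSeries_C], by
    rw [Polynomial.eval_map, ← Polynomial.eval₂_hom, PowerSeries.constantCoeff_C]⟩
  rw [fe] at g1
  simp only [Polynomial.map_mul, Polynomial.map_add, Polynomial.map_pow, Polynomial.map_X,
    Polynomial.map_C] at g1
  generalize HahnSeries.ofPowerSeries ℤ κ (f.coeff 1) = b at rb g1
  generalize HahnSeries.ofPowerSeries ℤ κ (f.coeff 0) = c at rc g1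
  generalize q.map (HahnSeries.ofPowerSeries ℤ κ) = q' at rq g1
  have rF : Res (HahnSeries.C xb ^ 2 + (c + b * HahnSeries.C xb)) 0 := by
    have := ((Res.C xb).pow 2).add (rc.add (rb.mul (.C xb)))
    rwa [show xb ^ 2 + (xb ^ 2 + -2 * xb * xb) = 0 by ring] at this
  have rp := (res_l0 lb).pt h0 (.C xb)
  have e1 := der_pt (dU κ k) (l := l0 lb) (x := HahnSeries.C xb) ((Res.C _).ne_zero h0) (dU_C _)
    (by rw [l0, map_add, dU_C, dU_X, zero_add]) (dU_C _) Q
  rw [← eval_fl, ← g1, Polynomial.eval_mul, Derivation.leibniz, smul_eq_mul, smul_eq_mul] at e1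
  simp only [Polynomial.eval_add, Polynomial.eval_mul, Polynomial.eval_pow, Polynomial.eval_X,
    Polynomial.eval_C] at e1
  have e2 := (rF.mul (rq.dU k)).add (rq.mul (rF.dU k))
  rw [e1] at e2
  have e3 := e2.unique (((rp.ev _).mul ((Res.C _).div .two two_ne_zero)).add
      ((rp.ev _).mul ((Res.one.div .two two_ne_zero).neg.div (.C _) h0)))
  have r0 : Res (b + 2 * HahnSeries.C xb) 0 := by
    have := rb.add (Res.two.mul (.C xb))
    rwa [neg_mul, neg_add_cancel] at this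
  obtain ⟨w, nw, rw', tw, e5⟩ := sqrt_disc r0 rF fun e => by
    rw [e, hp] at e3
    refine mul_ne_zero h.Qz h0 ?_
    rw [yv] at hy
    linear_combination hy / 2 - e3
  simp only [map_add, map_mul, map_pow, map_ofNat] at e5
  rw [l2, ← map_fl _ (ram_alg 2), ← g1]
  simp only [Polynomial.map_mul, Polynomial.map_add, Polynomial.map_pow, Polynomial.map_X,
    Polynomial.map_C]
  have a1 : ∀ w, Res w 0 → Res ((w - ram 2 b) / 2) xb := fun w hw => by
    have := (hw.sub (rb.ram 2)).div .two two_ne_zero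
    rwa [show (0 - -2 * xb) / 2 = xb by ring] at this
  refine ⟨(w - ram 2 b) / 2, (-w - ram 2 b) / 2, fun e => nw ?_, a1 _ rw', a1 _ ?_,
    ?_, ?_, quad_aux _ e5, quad_aux _ (e5.trans (neg_sq w).symm)⟩
  · rwa [div_left_inj' two_ne_zero, sub_left_inj, self_eq_neg] at e
  · have := rw'.neg
    rwa [neg_zero] at this
  · rw [map_div₀, map_sub, tw, rot_ram2, map_ofNat]
  · rw [map_div₀, map_sub, map_neg, tw, rot_ram2, map_ofNat, neg_neg]

omit [IsAlgClosed κ] in
lemma gen_l2 : Gen k (l2 (thru A s)) := by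
  refine (hom_gen _ (ram_alg 2)).2 (gen_of_jac (D := dcoef D) (E := dU κ k) ?_)
  rw [jac_l0]
  exact (Res.C _).ne_zero (h.ds_ne hs)

theorem model : ∃ (x : Fin Q.totalDegree → LaurentSeries κ) (i j : Fin Q.totalDegree), i ≠ j ∧
    Function.Injective x ∧ fl Q (l2 (thru A s)) =
      Polynomial.C ((fl Q (l2 (thru A s))).coeff Q.totalDegree) *
        ∏ m, (Polynomial.X - Polynomial.C (x m)) ∧
    ∀ m, rot (-1) (x m) = x (Equiv.swap i j m) := by
  classical
  have : CharZero κ := charZero_of_injective_algebraMap (algebraMap k κ).injective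
  obtain ⟨u, v, huv, ru, rv, tu, tv, zu, zv⟩ := h.quad hs
  have h0 : (thru A s).1 ≠ 0 := h.s_ne hs
  have hm := h.mult_two hs
  have hne : fl Q (thru A s) ≠ 0 := fl_ne h.irr.ne_zero (h.s_tr hs)
  have hd : (fl Q (thru A s)).natDegree = _ := natDegree_fl h.irr.ne_zero (h.s_tr hs)
  have ht := Gen_tr1 (h.gen_l2 hs)
  have he := fun x => h.env hs h.irr (x := x)
  have hx : ∀ x, pt (thru A s) x = A → x = pos (thru A s) A := fun x e => by
    rw [← pos_pt h0 x, e]
  generalize pos (thru A s) A = xb at *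
  generalize thru A s = lb at *
  let T := (fl Q lb).roots.toFinset.erase xb
  have hT : ∀ z ∈ T, z ≠ xb ∧ (fl Q lb).eval z = 0 ∧ (fl Q lb).derivative.eval z ≠ 0 :=
    fun z hz => by
      simp only [T, Finset.mem_erase, Multiset.mem_toFinset, Polynomial.mem_roots hne] at hz
      exact ⟨hz.1, hz.2, fun e => hz.1 (hx z (he z hz.2 e))⟩
  have hc : T.card + 2 = Q.totalDegree := by
    rw [← hd, ← IsAlgClosed.card_roots_eq_natDegree, ← Multiset.toFinset_sum_count_eq,
      ← Finset.sum_erase_add (a := xb), Polynomial.count_roots, hm, Finset.card_eq_sum_ones]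
    · refine congrArg (· + 2) (Finset.sum_congr rfl fun z hz => ?_)
      obtain ⟨-, h2, h3⟩ := hT z hz
      rw [Polynomial.count_roots]
      exact le_antisymm ((Polynomial.rootMultiplicity_pos hne).2 h2) (not_lt.1 fun e =>
        h3 ((Polynomial.one_lt_rootMultiplicity_iff_isRoot hne).1 e).2)
    · rw [Multiset.mem_toFinset, ← Multiset.count_pos, Polynomial.count_roots, hm]
      exact two_pos
  have hy : ∀ z, ∃ y, z ∈ T → Res y z ∧ (fl Q (l0 lb)).eval y = 0 := fun z => by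
    by_cases hz : z ∈ T
    · exact (hens Q (res_l0 lb) h0 (hT z hz).2.1 (hT z hz).2.2).imp fun y hy _ => hy
    · exact ⟨0, fun e => (hz e).elim⟩
  choose y hy using hy
  have n1 : ∀ w, Res w xb → w ∉ T.image fun z => ram 2 (y z) := fun w hw e => by
    obtain ⟨z, hz, rfl⟩ := Finset.mem_image.1 e
    exact (hT z hz).1 (((hy z hz).1.ram 2).unique hw)
  obtain ⟨x, x1, x2, x3, x4⟩ := enum (natDegree_fl h.irr.ne_zero ht) (fl_ne h.irr.ne_zero ht)
    (insert u (insert v (T.image fun z => ram 2 (y z)))) (by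
      rw [Finset.card_insert_of_notMem (by simp only [Finset.mem_insert, huv, n1 u ru, or_self,
        not_false_eq_true]), Finset.card_insert_of_notMem (n1 v rv), Finset.card_image_of_injOn, hc]
      intro a ha b hb e
      exact ((hy a ha).1.ram 2).unique ((show ram 2 (y b) = ram 2 (y a) from e.symm) ▸
        (hy b hb).1.ram 2)) (by
      simp only [Finset.mem_insert, Finset.mem_image]
      rintro z (rfl | rfl | ⟨z, hz, rfl⟩)
      exacts [zu, zv, root_l2 (hy z hz).2])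
  obtain ⟨i, rfl⟩ := x3 u (Finset.mem_insert_self _ _)
  obtain ⟨j, rfl⟩ := x3 v (Finset.mem_insert_of_mem (Finset.mem_insert_self _ _))
  refine ⟨x, i, j, fun e => huv (by rw [e]), x1, x4, fun m => ?_⟩
  by_cases hi : m = i
  · rw [hi, Equiv.swap_apply_left, tu]
  by_cases hj : m = j
  · rw [hj, Equiv.swap_apply_right, tv]
  have := x2 m
  simp only [Finset.mem_insert, Finset.mem_image, x1.eq_iff, hi, hj, false_or] at this
  obtain ⟨z, -, e⟩ := this
  rw [Equiv.swap_apply_of_ne_of_ne hi hj, ← e, rot_ram2]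

/-- The prime of the tangent lines has odd multiplicity in the discriminant. -/
lemma odd_disc {π : R2 k} (hπ : Irreducible π) (hz : ev (thru A s) π = 0) :
    Odd (multiplicity π (disc Q)) := by
  have : CharZero κ := charZero_of_injective_algebraMap (algebraMap k κ).injective
  obtain ⟨x, i, j, hij, x1, x2, x3⟩ := h.model hs
  have hg := h.gen_l2 hs
  have e := disc_spec Q (one_le_two.trans h.deg) _ _ _ x (Gen_ne hg) x2
  obtain ⟨p, p0, hp⟩ := coeff_fl_top Q h.irr.ne_zero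
  have r1 : Res (Polynomial.aeval (l2 (thru A s)).1 p) (Polynomial.aeval s p) := by
    have := ((res_l0 (thru A s)).ev (Polynomial.aeval (X 0 : R2 k) p)).ram 2
    rwa [hom_ev _ (ram_alg 2), ← Polynomial.aeval_algHom_apply, ← Polynomial.aeval_algHom_apply,
      ev_X0, ev_X0] at this
  have n1 : Polynomial.aeval s p ≠ 0 := fun e => h.s_tr hs ⟨p, p0, e⟩
  have hV := Matrix.det_vandermonde_ne_zero_iff.2 x1
  have o := odd_order hV (vdm_swap _ x hij x3)
  rw [hp _ _ (Gen_ne hg)] at e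
  have n2 := pow_ne_zero (2 * Q.totalDegree) (r1.ne_zero n1)
  have hd : disc Q ≠ 0 := fun e0 => mul_ne_zero n2 (pow_ne_zero 2 hV) (by rw [← e, e0, map_zero])
  have e2 := (tr (res_l0 (thru A s)) ((jac_l0 D _).symm ▸ Res.C _) (h.ds_ne hs) hπ hz hd).2
  have e3 := congrArg HahnSeries.order e
  rw [l2, ← hom_ev _ (ram_alg 2), order_ram, e2, ← l2, HahnSeries.order_mul n2 (pow_ne_zero 2 hV),
    HahnSeries.order_pow, HahnSeries.order_pow, r1.order n1] at e3
  simp only [PNat.val_ofNat, Nat.cast_ofNat, smul_zero, zero_add, nsmul_eq_mul] at e3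
  rwa [← mul_left_cancel₀ two_ne_zero e3, Int.odd_coe_nat] at o

lemma disc_ne {Q' : R2 k} (hQ' : Irreducible Q') (hd : 1 ≤ Q'.totalDegree)
    (hn : ¬ Associated Q Q') : ev (thru A s) (disc Q') ≠ 0 := by
  classical
  have : CharZero κ := charZero_of_injective_algebraMap (algebraMap k κ).injective
  have ht : Transcendental k (thru A s).1 := h.s_tr hs
  have hne := fl_ne hQ'.ne_zero ht
  have hN : (fl Q' (thru A s)).roots.Nodup := Multiset.nodup_iff_count_le_one.2 fun z => by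
    rw [Polynomial.count_roots]
    by_contra e
    obtain ⟨e1, e2⟩ := (Polynomial.one_lt_rootMultiplicity_iff_isRoot hne).1 (not_le.1 e)
    have e3 := h.env hs hQ' e1 e2
    rw [Polynomial.IsRoot, eval_fl, e3] at e1
    exact hn (h.irr.associated_of_dvd hQ' (h.dvd e1))
  obtain ⟨x, x1, -, -, x4⟩ := enum (natDegree_fl hQ'.ne_zero ht) hne
    (fl Q' (thru A s)).roots.toFinset (by
      rw [Multiset.toFinset_card_of_nodup hN, IsAlgClosed.card_roots_eq_natDegree,
        natDegree_fl hQ'.ne_zero ht])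
    fun z hz => (Polynomial.mem_roots hne).1 (Multiset.mem_toFinset.1 hz)
  rw [disc_spec Q' hd _ _ _ x (h.s_ne hs) x4]
  exact mul_ne_zero (pow_ne_zero _ (mul_ne_zero (pow_ne_zero _ (h.s_ne hs))
    (coeff_fl_ne hQ'.ne_zero ht))) (pow_ne_zero 2 (Matrix.det_vandermonde_ne_zero_iff.2 x1))

end GP

variable [IsAlgClosed k] [CharZero k]

theorem tm : TM k := fun Q hQ hd => by
  obtain ⟨A, D, h⟩ := exists_GP hQ hd
  obtain ⟨s, hs⟩ := IsAlgClosed.exists_pow_nat_eq (qv Q A) two_pos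
  obtain ⟨x, i, j, hij, x1, x2, x3⟩ := h.model hs
  exact ⟨_, _, _, l2 (thru A s), ⟨rot (-1), fun c => rot_C _ _⟩, _, x, i, j, h.gen_l2 hs, hij, x1,
    x2, rot_ram2 _, rot_ram2 _, x3⟩

/-- (TAN), (ENV), (NV) -/
theorem tanp : TANP k := fun Q hQ hd => by
  obtain ⟨A, D, h⟩ := exists_GP hQ (by omega)
  obtain ⟨s, hs⟩ := IsAlgClosed.exists_pow_nat_eq (qv Q A) two_pos
  obtain ⟨π, hπ, hz⟩ := exists_irr_of_not_gen (h.td (thru A s))
  have hdv : ∀ n, π ∣ n → ev (thru A s) n = 0 := fun n hn => by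
    obtain ⟨m, rfl⟩ := hn
    rw [map_mul, hz, zero_mul]
  refine ⟨π, ⟨hπ, fun e => h.s_ne hs ?_, h.odd_disc hs hπ hz⟩,
    fun Q' h1 h2 h3 e => h.disc_ne hs h1 (by omega) h3 (hdv _ e), fun q hq ⟨c, e⟩ => ?_⟩
  · exact (ev_X0 (thru A s)).symm.trans (hdv _ e.dvd)
  · refine h.nv hs hd _ ?_ c (hdv _ e)
    by_contra hn
    simp only [Conic.dQ, not_or, not_not] at hn
    refine hq ?_
    rw [Conic.Δ]
    linear_combination q.f * hn.1 + q.e / 4 * hn.2.1 - q.d / 4 * hn.2.2

end Ivrii.S3
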